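import Pool.Agent.Results.MP_f2d8fc_an.SplitFixedPoints

/-!
# MP_f2d8fc_an : all fixed points of the Pearson correlation map, parametrised by their kernel and
their row deviations
-/

namespace Pool.Agent.Results.MP_f2d8fc_an.KernelAndDeviations

open Matrix
open Pool.Agent.Results.MP_f2d8fc_an.SplitFixedPoints

variable {n : ℕ}

section uniqueness

open scoped MatrixOrder

lemma psd_factor (X : Matrix (Fin n) (Fin n) ℝ) (hX : X.PosSemidef) :
    ∃ B : Matrix (Fin n) (Fin n) ℝ, X = Bᵀ * B := by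
  obtain ⟨B, hB⟩ := CStarAlgebra.nonneg_iff_eq_star_mul_self.mp hX.nonneg
  exact ⟨B, by rw [hB, star_eq_conjTranspose, conjTranspose_eq_transpose_of_trivial]⟩

lemma trace_factor (B C Z : Matrix (Fin n) (Fin n) ℝ) :
    trace ((Bᵀ * B) * Z * (Cᵀ * C) * Zᵀ) = trace ((C * Zᵀ * Bᵀ)ᴴ * (C * Zᵀ * Bᵀ)) := by
  rw [conjTranspose_eq_transpose_of_trivial]
  simp only [transpose_mul, transpose_transpose]
  rw [show Bᵀ * B * Z * (Cᵀ * C) * Zᵀ = Bᵀ * (B * Z * (Cᵀ * C) * Zᵀ) by
    simp only [Matrix.mul_assoc], trace_mul_comm]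
  simp only [Matrix.mul_assoc]

lemma trace_psd_nonneg (X Y Z : Matrix (Fin n) (Fin n) ℝ) (hX : X.PosSemidef)
    (hY : Y.PosSemidef) : 0 ≤ trace (X * Z * Y * Zᵀ) := by
  obtain ⟨B, rfl⟩ := psd_factor X hX
  obtain ⟨C, rfl⟩ := psd_factor Y hY
  rw [trace_factor]
  exact (posSemidef_conjTranspose_mul_self _).trace_nonneg

lemma trace_psd_zero (X Y Z : Matrix (Fin n) (Fin n) ℝ) (hX : X.PosSemidef)
    (hY : Y.PosSemidef) (h : trace (X * Z * Y * Zᵀ) = 0) : Y * Zᵀ * X = 0 := by
  obtain ⟨B, rfl⟩ := psd_factor X hX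
  obtain ⟨C, rfl⟩ := psd_factor Y hY
  rw [trace_factor, trace_conjTranspose_mul_self_eq_zero_iff] at h
  calc Cᵀ * C * Zᵀ * (Bᵀ * B) = Cᵀ * (C * Zᵀ * Bᵀ) * B := by simp only [Matrix.mul_assoc]
    _ = 0 := by rw [h]; simp

/-- uniqueness of the positive definite solution of `M K M = D M D` -/
lemma unique_pd (K M₁ M₂ N₁ N₂ J D E : Matrix (Fin n) (Fin n) ℝ)
    (hK : K.PosSemidef) (hM₁ : M₁.PosSemidef) (hM₂ : M₂.PosSemidef)
    (hKJ : K * J = 1) (h1 : M₁ * N₁ = 1) (h2 : M₂ * N₂ = 1) (hDE : D * E = 1)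
    (hJ : J.PosSemidef) (hN₁ : N₁.PosSemidef) (hN₂ : N₂.PosSemidef)
    (e1 : M₁ * K * M₁ = D * M₁ * D) (e2 : M₂ * K * M₂ = D * M₂ * D) : M₁ = M₂ := by
  have tr : ∀ X : Matrix (Fin n) (Fin n) ℝ, X.PosSemidef → Xᵀ = X := by
    intro X hX
    have := hX.1
    rwa [IsHermitian, conjTranspose_eq_transpose_of_trivial] at this
  have hJK : J * K = 1 := mul_eq_one_comm.mp hKJ
  have h1' : N₁ * M₁ = 1 := mul_eq_one_comm.mp h1
  have h2' : N₂ * M₂ = 1 := mul_eq_one_comm.mp h2
  have hED : E * D = 1 := mul_eq_one_comm.mp hDE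
  -- general computation
  have key : ∀ M N M' : Matrix (Fin n) (Fin n) ℝ, M * N = 1 → N * M = 1 → Mᵀ = M → Nᵀ = N →
      M'ᵀ = M' → M * K * M = D * M * D → M' * K * M' = D * M' * D →
      trace (J * (N * (M' - M)) * K * (N * (M' - M))ᵀ) = n - trace (N * M') := by
    intro M N M' hMN hNM hMt hNt hM't heq heq'
    have hJf : J = M * E * N * E * M := by
      have hKf : K = N * D * M * D * N := by
        calc K = (N * M) * K * (M * N) := by rw [hNM, hMN, Matrix.one_mul, Matrix.mul_one]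
          _ = N * (M * K * M) * N := by simp only [Matrix.mul_assoc]
          _ = N * (D * M * D) * N := by rw [heq]
          _ = N * D * M * D * N := by simp only [Matrix.mul_assoc]
      have hKJ' : K * (M * E * N * E * M) = 1 := by
        calc K * (M * E * N * E * M) = N * D * M * D * (N * M) * E * N * E * M := by
              rw [hKf]; simp only [Matrix.mul_assoc]
          _ = N * D * M * (D * E) * N * E * M := by
              rw [hNM, Matrix.mul_one]; simp only [Matrix.mul_assoc]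
          _ = N * D * (M * N) * E * M := by
              rw [hDE, Matrix.mul_one]; simp only [Matrix.mul_assoc]
          _ = N * (D * E) * M := by rw [hMN, Matrix.mul_one]; simp only [Matrix.mul_assoc]
          _ = 1 := by rw [hDE, Matrix.mul_one, hNM]
      calc J = J * (K * (M * E * N * E * M)) := by rw [hKJ', Matrix.mul_one]
        _ = (J * K) * (M * E * N * E * M) := by simp only [Matrix.mul_assoc]
        _ = M * E * N * E * M := by rw [hJK, Matrix.one_mul]
    have hexp : J * (N * (M' - M)) * K * (N * (M' - M))ᵀ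
        = J * N * (M' * K * M') * N - J * N * M' * K - M' * N + 1 := by
      rw [transpose_mul, transpose_sub, hM't, hMt, hNt]
      have a1 : N * (M' - M) = N * M' - 1 := by rw [Matrix.mul_sub, hNM]
      have a2 : (M' - M) * N = M' * N - 1 := by rw [Matrix.sub_mul, hMN]
      rw [a1, a2]
      have g : J * (N * M' - 1) * K * (M' * N - 1)
          = J * (N * M') * K * (M' * N) - J * (N * M') * K - (J * K) * (M' * N) + J * K := by
        noncomm_ring
      rw [g, hJK, Matrix.one_mul]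
      simp only [Matrix.mul_assoc]
    rw [hexp, trace_add, trace_sub, trace_sub, trace_one, Fintype.card_fin]
    have t1 : trace (J * N * (M' * K * M') * N) = trace (N * M') := by
      rw [heq']
      have : J * N * (D * M' * D) * N = M * (E * N * M' * D * N) := by
        rw [hJf]
        calc M * E * N * E * M * N * (D * M' * D) * N
            = M * E * N * E * (M * N) * (D * M' * D) * N := by simp only [Matrix.mul_assoc]
          _ = M * E * N * (E * D) * M' * D * N := by
              rw [hMN, Matrix.mul_one]; simp only [Matrix.mul_assoc]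
          _ = M * (E * N * M' * D * N) := by
              rw [hED, Matrix.mul_one]; simp only [Matrix.mul_assoc]
      rw [this, trace_mul_comm]
      have : E * N * M' * D * N * M = E * (N * M' * D) := by
        rw [Matrix.mul_assoc _ N M, hNM, Matrix.mul_one]; simp only [Matrix.mul_assoc]
      rw [this, trace_mul_comm]
      have : N * M' * D * E = N * M' := by
        rw [Matrix.mul_assoc _ D E, hDE, Matrix.mul_one]
      rw [this]
    have t2 : trace (J * N * M' * K) = trace (N * M') := by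
      rw [trace_mul_comm]
      have : K * (J * N * M') = N * M' := by
        calc K * (J * N * M') = (K * J) * N * M' := by simp only [Matrix.mul_assoc]
          _ = N * M' := by rw [hKJ, Matrix.one_mul]
      rw [this]
    rw [t1, t2, trace_mul_comm M' N]
    ring
  have k1 := key M₁ N₁ M₂ h1 h1' (tr _ hM₁) (tr _ hN₁) (tr _ hM₂) e1 e2
  have k2 := key M₂ N₂ M₁ h2 h2' (tr _ hM₂) (tr _ hN₂) (tr _ hM₁) e2 e1
  have p1 := trace_psd_nonneg J K (N₁ * (M₂ - M₁)) hJ hK
  have p2 := trace_psd_nonneg J K (N₂ * (M₁ - M₂)) hJ hK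
  have p3 := trace_psd_nonneg N₂ N₁ (M₂ - M₁) hN₂ hN₁
  have k3 : trace (N₂ * (M₂ - M₁) * N₁ * (M₂ - M₁)ᵀ)
      = trace (N₁ * M₂) + trace (N₂ * M₁) - 2 * n := by
    rw [transpose_sub, tr _ hM₂, tr _ hM₁]
    have : N₂ * (M₂ - M₁) * N₁ * (M₂ - M₁) = N₁ * M₂ + N₂ * M₁ - 1 - N₂ * M₁ * N₁ * M₂ := by
      have g : N₂ * (M₂ - M₁) * N₁ * (M₂ - M₁) = (N₂ * M₂) * (N₁ * M₂) - (N₂ * M₂) * (N₁ * M₁)
          - N₂ * M₁ * N₁ * M₂ + N₂ * M₁ * (N₁ * M₁) := by noncomm_ring
      rw [g, h2', h1', Matrix.one_mul, Matrix.one_mul, Matrix.mul_one]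
      abel
    rw [this]
    have : N₂ * M₁ * N₁ * M₂ = 1 := by
      rw [Matrix.mul_assoc N₂ M₁ N₁, h1, Matrix.mul_one, h2']
    rw [this, trace_sub, trace_sub, trace_add, trace_one, Fintype.card_fin]
    ring
  have hz : trace (N₂ * (M₂ - M₁) * N₁ * (M₂ - M₁)ᵀ) = 0 := by linarith
  have hz2 := trace_psd_zero N₂ N₁ (M₂ - M₁) hN₂ hN₁ hz
  rw [transpose_sub, tr _ hM₂, tr _ hM₁] at hz2
  have hz3 : M₂ - M₁ = 0 := by
    calc M₂ - M₁ = (M₁ * N₁) * (M₂ - M₁) * (N₂ * M₂) := by
          rw [h1, h2', Matrix.one_mul, Matrix.mul_one]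
      _ = M₁ * (N₁ * (M₂ - M₁) * N₂) * M₂ := by simp only [Matrix.mul_assoc]
      _ = 0 := by rw [hz2]; simp
  exact (sub_eq_zero.mp hz3).symm

/-- a symmetric real matrix has a commuting symmetric inner inverse -/
lemma pinv (A : Matrix (Fin n) (Fin n) ℝ) (hA : A.IsHermitian) :
    ∃ G : Matrix (Fin n) (Fin n) ℝ, Gᵀ = G ∧ A * G = G * A ∧ A * G * A = A := by
  set U : Matrix (Fin n) (Fin n) ℝ := hA.eigenvectorUnitary.1 with hU
  have hUU : star U * U = 1 := Matrix.mem_unitaryGroup_iff'.mp hA.eigenvectorUnitary.2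
  set l : Fin n → ℝ := hA.eigenvalues with hl
  have hAs : A = U * diagonal l * star U := by
    have := hA.spectral_theorem
    rw [Unitary.conjStarAlgAut_apply] at this
    exact this
  have hUt : star U = Uᵀ := by
    rw [star_eq_conjTranspose, conjTranspose_eq_transpose_of_trivial]
  refine ⟨U * diagonal (fun i => (l i)⁻¹) * star U, ?_, ?_, ?_⟩
  · rw [hUt]
    simp only [transpose_mul, transpose_transpose, diagonal_transpose, Matrix.mul_assoc]
  · rw [hAs]
    calc U * diagonal l * star U * (U * diagonal (fun i => (l i)⁻¹) * star U)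
        = U * diagonal l * (star U * U) * diagonal (fun i => (l i)⁻¹) * star U := by
          simp only [Matrix.mul_assoc]
      _ = U * (diagonal l * diagonal (fun i => (l i)⁻¹)) * star U := by
          rw [hUU, Matrix.mul_one]; simp only [Matrix.mul_assoc]
      _ = U * (diagonal (fun i => (l i)⁻¹) * diagonal l) * star U := by
          rw [diagonal_mul_diagonal, diagonal_mul_diagonal]
          simp only [mul_comm]
      _ = U * diagonal (fun i => (l i)⁻¹) * (star U * U) * diagonal l * star U := by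
          rw [hUU, Matrix.mul_one]; simp only [Matrix.mul_assoc]
      _ = U * diagonal (fun i => (l i)⁻¹) * star U * (U * diagonal l * star U) := by
          simp only [Matrix.mul_assoc]
  · have hd : diagonal l * diagonal (fun i => (l i)⁻¹) * diagonal l = diagonal l := by
      rw [diagonal_mul_diagonal, diagonal_mul_diagonal]
      congr 1
      ext i
      by_cases h0 : l i = 0
      · rw [h0]; simp
      · field_simp
    calc A * (U * diagonal (fun i => (l i)⁻¹) * star U) * A
        = U * diagonal l * (star U * U) * diagonal (fun i => (l i)⁻¹) * (star U * U)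
            * diagonal l * star U := by
          conv_lhs => rw [hAs]
          simp only [Matrix.mul_assoc]
      _ = U * (diagonal l * diagonal (fun i => (l i)⁻¹) * diagonal l) * star U := by
          rw [hUU, Matrix.mul_one, Matrix.mul_one]; simp only [Matrix.mul_assoc]
      _ = A := by rw [hd, ← hAs]

end uniqueness

section uniqueness2

open scoped MatrixOrder

lemma mat_zero (X : Matrix (Fin n) (Fin n) ℝ) (h : ∀ x : Fin n → ℝ, X *ᵥ x = 0) : X = 0 := by
  ext i j
  have := congrFun (h (Pi.single j 1)) i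
  simpa using this

lemma psd_add_zero (X Y : Matrix (Fin n) (Fin n) ℝ) (hX : X.PosSemidef) (hY : Y.PosSemidef)
    (x : Fin n → ℝ) (h : (X + Y) *ᵥ x = 0) : X *ᵥ x = 0 ∧ Y *ᵥ x = 0 := by
  have h1 : star x ⬝ᵥ (X *ᵥ x) + star x ⬝ᵥ (Y *ᵥ x) = 0 := by
    rw [← dotProduct_add, ← add_mulVec, h, dotProduct_zero]
  have h2 := hX.dotProduct_mulVec_nonneg x
  have h3 := hY.dotProduct_mulVec_nonneg x
  exact ⟨(hX.dotProduct_mulVec_zero_iff x).mp (by linarith),
    (hY.dotProduct_mulVec_zero_iff x).mp (by linarith)⟩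

lemma inv_of_inj (X : Matrix (Fin n) (Fin n) ℝ) (h : ∀ x : Fin n → ℝ, X *ᵥ x = 0 → x = 0) :
    X * X⁻¹ = 1 := by
  have h1 : IsUnit X := by
    rw [← mulVec_injective_iff_isUnit]
    intro x y hxy
    have h2 : X *ᵥ (x - y) = 0 := by rw [mulVec_sub]; exact sub_eq_zero.mpr hxy
    exact sub_eq_zero.mp (h _ h2)
  exact Matrix.mul_nonsing_inv X ((Matrix.isUnit_iff_isUnit_det X).mp h1)

/-- the centring matrix -/
noncomputable def cen (n : ℕ) : Matrix (Fin n) (Fin n) ℝ :=
  1 - (1 / (n:ℝ)) • vecMulVec (fun _ => 1) (fun _ => 1)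

lemma cen_t : (cen n)ᵀ = cen n := by
  rw [cen, transpose_sub, transpose_one, transpose_smul, transpose_vecMulVec]

lemma cen_sq (hn : 0 < n) : cen n * cen n = cen n := by
  have hn' : (n : ℝ) ≠ 0 := by exact_mod_cast hn.ne'
  have hE : vecMulVec (fun _ : Fin n => (1:ℝ)) (fun _ : Fin n => (1:ℝ))
      * vecMulVec (fun _ : Fin n => (1:ℝ)) (fun _ : Fin n => (1:ℝ))
      = (n:ℝ) • vecMulVec (fun _ : Fin n => (1:ℝ)) (fun _ : Fin n => (1:ℝ)) := by
    ext i j
    rw [Matrix.mul_apply, Matrix.smul_apply]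
    simp [vecMulVec_apply]
  have hc : 1 / (n:ℝ) * (1 / (n:ℝ) * n) = 1 / n := by field_simp
  unfold cen
  simp only [Matrix.mul_sub, Matrix.sub_mul, Matrix.mul_one, Matrix.one_mul, Matrix.smul_mul,
    Matrix.mul_smul, hE, smul_sub, smul_smul, hc]
  abel

lemma cen_mulVec_zero (x : Fin n → ℝ) (h : cen n *ᵥ x = 0) :
    ∀ i, x i = (∑ k, x k) / n := by
  intro i
  have h1 := congrFun h i
  unfold cen at h1
  rw [sub_mulVec, one_mulVec, smul_mulVec] at h1
  have h2 : (vecMulVec (fun _ : Fin n => (1:ℝ)) (fun _ : Fin n => (1:ℝ)) *ᵥ x) i = ∑ k, x k := by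
    simp [mulVec, dotProduct, vecMulVec_apply]
  have h3 : x i - 1 / (n:ℝ) * ∑ k, x k = 0 := by
    rw [← h2]; simpa using h1
  have : 1 / (n:ℝ) * ∑ k, x k = (∑ k, x k) / n := by ring
  linarith

lemma fixed_eq (hn : 0 < n) (A : Matrix (Fin n) (Fin n) ℝ) (hA : IsCorrelation A)
    (h : corrMap A = A) : A * cen n * A = diagonal (dev A) * A * diagonal (dev A) := by
  obtain ⟨-, hcov⟩ := fixed_facts hn A hA h
  ext i j
  rw [mul_diagonal, diagonal_mul, ← hcov]
  unfold cov cen
  rw [Matrix.mul_sub, Matrix.mul_one, Matrix.sub_mul, Matrix.sub_apply, Matrix.mul_smul,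
    Matrix.smul_mul, Matrix.smul_apply, smul_eq_mul]
  congr 1
  have h1 : (A * vecMulVec (fun _ : Fin n => (1:ℝ)) (fun _ : Fin n => (1:ℝ)) * A) i j
      = (∑ k, A i k) * ∑ k, A j k := by
    rw [Matrix.mul_apply, Finset.mul_sum]
    apply Finset.sum_congr rfl
    intro k _
    rw [Matrix.mul_apply, symm_of A hA k j]
    simp [vecMulVec_apply]
  rw [h1]; ring

end uniqueness2

section existence

open scoped MatrixOrder

lemma sqrt_exists (W : Matrix (Fin n) (Fin n) ℝ) (hW : W.PosSemidef) :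
    ∃ X : Matrix (Fin n) (Fin n) ℝ, X.PosSemidef ∧ X * X = W :=
  ⟨CFC.sqrt W, (CFC.sqrt_nonneg W).posSemidef, CFC.sqrt_mul_sqrt_self W hW.nonneg⟩

lemma sqrt_mono (X Y : Matrix (Fin n) (Fin n) ℝ) (hX : X.PosSemidef) (hY : Y.PosSemidef)
    (h : (Y * Y - X * X).PosSemidef) : (Y - X).PosSemidef := by
  have hZ : (Y - X).IsHermitian := hY.1.sub hX.1
  rw [hZ.posSemidef_iff_eigenvalues_nonneg]
  intro i
  by_contra hneg
  rw [Pi.zero_apply, not_le] at hneg
  set v : Fin n → ℝ := (hZ.eigenvectorBasis i).ofLp with hv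
  have hev : (Y - X) *ᵥ v = hZ.eigenvalues i • v := hZ.mulVec_eigenvectorBasis i
  have hv0 : v ≠ 0 := by
    intro h0
    have h1 := hZ.eigenvectorBasis.orthonormal.ne_zero i
    apply h1
    ext j
    exact congrFun h0 j
  have hXt : Xᵀ = X := by
    have := hX.1
    rwa [IsHermitian, conjTranspose_eq_transpose_of_trivial] at this
  have hYt : Yᵀ = Y := by
    have := hY.1
    rwa [IsHermitian, conjTranspose_eq_transpose_of_trivial] at this
  have h1 : 0 ≤ v ⬝ᵥ ((Y * Y - X * X) *ᵥ v) := by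
    have := h.dotProduct_mulVec_nonneg v
    rwa [star_trivial] at this
  have h2 : v ⬝ᵥ ((Y * Y - X * X) *ᵥ v)
      = hZ.eigenvalues i * (v ⬝ᵥ (Y *ᵥ v) + v ⬝ᵥ (X *ᵥ v)) := by
    have e1 : Y * Y - X * X = (Y - X) * Y + X * (Y - X) := by noncomm_ring
    rw [e1, add_mulVec, dotProduct_add, ← mulVec_mulVec, ← mulVec_mulVec, hev, mulVec_smul,
      dotProduct_smul, dotProduct_mulVec v (Y - X) (Y *ᵥ v), ← mulVec_transpose, transpose_sub,
      hXt, hYt, hev, smul_dotProduct, smul_eq_mul, smul_eq_mul]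
    ring
  have hYv := hY.dotProduct_mulVec_nonneg v
  have hXv := hX.dotProduct_mulVec_nonneg v
  rw [star_trivial] at hYv hXv
  rw [h2] at h1
  have h3 : v ⬝ᵥ (Y *ᵥ v) + v ⬝ᵥ (X *ᵥ v) = 0 := by nlinarith
  have h4 : Y *ᵥ v = 0 := (hY.dotProduct_mulVec_zero_iff v).mp (by rw [star_trivial]; linarith)
  have h5 : X *ᵥ v = 0 := (hX.dotProduct_mulVec_zero_iff v).mp (by rw [star_trivial]; linarith)
  rw [sub_mulVec, h4, h5, sub_zero] at hev
  have h6 := (smul_eq_zero.mp hev.symm).resolve_right hv0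
  linarith

lemma upper_exists (W : Matrix (Fin n) (Fin n) ℝ) (hW : W.PosSemidef) :
    ∃ b : ℝ, 1 ≤ b ∧ (b • (1 : Matrix (Fin n) (Fin n) ℝ) - W).PosSemidef := by
  refine ⟨1 + ∑ i, ∑ j, |W i j|, ?_, ?_⟩
  · have : 0 ≤ ∑ i, ∑ j, |W i j| :=
      Finset.sum_nonneg fun i _ => Finset.sum_nonneg fun j _ => abs_nonneg _
    linarith
  · refine Matrix.PosSemidef.of_dotProduct_mulVec_nonneg ?_ ?_
    · exact ((isHermitian_one.smul (k := (1 + ∑ i, ∑ j, |W i j| : ℝ)) (by simp [IsSelfAdjoint])).sub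
        hW.1)
    · intro x
      rw [star_trivial, sub_mulVec, smul_mulVec, one_mulVec, dotProduct_sub, dotProduct_smul,
        smul_eq_mul, sub_nonneg]
      have hx : 0 ≤ x ⬝ᵥ x := Finset.sum_nonneg fun i _ => mul_self_nonneg _
      have hxi : ∀ i, x i * x i ≤ x ⬝ᵥ x := fun i =>
        Finset.single_le_sum (f := fun k => x k * x k) (fun k _ => mul_self_nonneg _)
          (Finset.mem_univ i)
      have h1 : x ⬝ᵥ (W *ᵥ x) ≤ (∑ i, ∑ j, |W i j|) * (x ⬝ᵥ x) := by
        rw [dotProduct, Finset.sum_mul]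
        apply Finset.sum_le_sum
        intro i _
        rw [mulVec, dotProduct, Finset.mul_sum, Finset.sum_mul]
        apply Finset.sum_le_sum
        intro j _
        have h2 : |x i * x j| ≤ x ⬝ᵥ x := by
          rw [abs_le]
          constructor <;> nlinarith [hxi i, hxi j, mul_self_nonneg (x i + x j),
            mul_self_nonneg (x i - x j)]
        calc x i * (W i j * x j) = W i j * (x i * x j) := by ring
          _ ≤ |W i j * (x i * x j)| := le_abs_self _
          _ = |W i j| * |x i * x j| := abs_mul _ _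
          _ ≤ |W i j| * (x ⬝ᵥ x) := mul_le_mul_of_nonneg_left h2 (abs_nonneg _)
      nlinarith

end existence

section existence2

open scoped MatrixOrder
open Filter Topology

lemma lower_exists (W V : Matrix (Fin n) (Fin n) ℝ) (hW : W.PosSemidef) (hWV : W * V = 1)
    (hV : V.PosSemidef) :
    ∃ a : ℝ, 0 < a ∧ a ≤ 1 ∧ (W - a • (1 : Matrix (Fin n) (Fin n) ℝ)).PosSemidef := by
  obtain ⟨b, hb, hbV⟩ := upper_exists V hV
  obtain ⟨R, hR, hRR⟩ := sqrt_exists W hW
  have hRt : Rᴴ = R := hR.1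
  have hRVR : R * V * R = 1 := by
    have h1 : R * (R * V) = 1 := by rw [← Matrix.mul_assoc, hRR, hWV]
    exact mul_eq_one_comm.mp h1
  have h2 : R * (b • (1 : Matrix (Fin n) (Fin n) ℝ) - V) * Rᴴ = b • W - 1 := by
    rw [hRt, Matrix.mul_sub, Matrix.sub_mul, hRVR, Matrix.mul_smul, Matrix.mul_one,
      Matrix.smul_mul, hRR]
  have h1 := hbV.mul_mul_conjTranspose_same R
  rw [h2] at h1
  have hb0 : b ≠ 0 := by linarith
  refine ⟨1 / b, by positivity, ?_, ?_⟩
  · rw [div_le_one (by linarith)]; exact hb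
  · have h3 : W - (1 / b) • (1 : Matrix (Fin n) (Fin n) ℝ) = (1 / b) • (b • W - 1) := by
      rw [smul_sub, smul_smul, one_div_mul_cancel hb0, one_smul]
    rw [h3]
    exact h1.smul (by positivity)

lemma exists_sol (L Li : Matrix (Fin n) (Fin n) ℝ) (hL : L * Li = 1) :
    ∃ X : Matrix (Fin n) (Fin n) ℝ, X.PosSemidef ∧ (∀ x : Fin n → ℝ, X *ᵥ x = 0 → x = 0) ∧
      X * X = L * X * Lᵀ := by
  have hLi : Li * L = 1 := mul_eq_one_comm.mp hL
  set W := L * Lᵀ with hWdef
  have hW : W.PosSemidef := by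
    have := posSemidef_self_mul_conjTranspose L
    rwa [conjTranspose_eq_transpose_of_trivial] at this
  set V := Liᵀ * Li with hVdef
  have hV : V.PosSemidef := by
    have := posSemidef_conjTranspose_mul_self Li
    rwa [conjTranspose_eq_transpose_of_trivial] at this
  have hWV : W * V = 1 := by
    calc W * V = L * (Li * L)ᵀ * Li := by
          rw [hWdef, hVdef, transpose_mul]; simp only [Matrix.mul_assoc]
      _ = 1 := by rw [hLi, transpose_one, Matrix.mul_one, hL]
  obtain ⟨b, hb, hbW⟩ := upper_exists W hW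
  obtain ⟨a, ha, ha1, haW⟩ := lower_exists W V hW hWV hV
  have hsq : ∀ Y : Matrix (Fin n) (Fin n) ℝ, ∃ Z : Matrix (Fin n) (Fin n) ℝ,
      Y.PosSemidef → Z.PosSemidef ∧ Z * Z = Y := by
    intro Y
    by_cases hY : Y.PosSemidef
    · obtain ⟨Z, h1, h2⟩ := sqrt_exists Y hY
      exact ⟨Z, fun _ => ⟨h1, h2⟩⟩
    · exact ⟨0, fun h => absurd h hY⟩
  choose s hs using hsq
  let X : ℕ → Matrix (Fin n) (Fin n) ℝ := fun k =>
    Nat.rec (b • (1 : Matrix (Fin n) (Fin n) ℝ)) (fun _ Y => s (L * Y * Lᵀ)) k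
  have hX0 : X 0 = b • (1 : Matrix (Fin n) (Fin n) ℝ) := rfl
  have hXs : ∀ k, X (k + 1) = s (L * X k * Lᵀ) := fun k => rfl
  have hconj : ∀ Y : Matrix (Fin n) (Fin n) ℝ, Y.PosSemidef → (L * Y * Lᵀ).PosSemidef := by
    intro Y hY
    have := hY.mul_mul_conjTranspose_same L
    rwa [conjTranspose_eq_transpose_of_trivial] at this
  have hXpsd : ∀ k, (X k).PosSemidef := by
    intro k
    induction k with
    | zero => rw [hX0]; exact PosSemidef.one.smul (by linarith)
    | succ k ih => rw [hXs]; exact (hs _ (hconj _ ih)).1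
  have hXsq : ∀ k, X (k + 1) * X (k + 1) = L * X k * Lᵀ := fun k => by
    rw [hXs]; exact (hs _ (hconj _ (hXpsd k))).2
  have hanti : ∀ k, (X k - X (k + 1)).PosSemidef := by
    intro k
    induction k with
    | zero =>
      apply sqrt_mono _ _ (hXpsd 1) (hXpsd 0)
      rw [show X 1 * X 1 = L * X 0 * Lᵀ from hXsq 0, hX0]
      have h1 : b • (1 : Matrix (Fin n) (Fin n) ℝ) * b • (1 : Matrix (Fin n) (Fin n) ℝ)
          - L * b • (1 : Matrix (Fin n) (Fin n) ℝ) * Lᵀ
          = b • (b • (1 : Matrix (Fin n) (Fin n) ℝ) - W) := by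
        rw [Matrix.smul_mul, Matrix.one_mul, Matrix.mul_smul, Matrix.mul_one, Matrix.smul_mul,
          smul_sub]
      rw [h1]
      exact hbW.smul (by linarith)
    | succ k ih =>
      apply sqrt_mono _ _ (hXpsd (k + 1 + 1)) (hXpsd (k + 1))
      rw [hXsq k, hXsq (k + 1)]
      have h1 : L * X k * Lᵀ - L * X (k + 1) * Lᵀ = L * (X k - X (k + 1)) * Lᵀ := by
        rw [Matrix.mul_sub, Matrix.sub_mul]
      rw [h1]
      exact hconj _ ih
  have hlow : ∀ k, (X k - a • (1 : Matrix (Fin n) (Fin n) ℝ)).PosSemidef := by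
    intro k
    induction k with
    | zero =>
      rw [hX0, ← sub_smul]
      exact PosSemidef.one.smul (by linarith)
    | succ k ih =>
      apply sqrt_mono _ _ (PosSemidef.one.smul ha.le) (hXpsd (k + 1))
      rw [hXsq]
      have h1 : L * X k * Lᵀ - a • (1 : Matrix (Fin n) (Fin n) ℝ) * a • (1 : Matrix (Fin n) (Fin n) ℝ)
          = L * (X k - a • (1 : Matrix (Fin n) (Fin n) ℝ)) * Lᵀ
            + a • (W - a • (1 : Matrix (Fin n) (Fin n) ℝ)) := by
        rw [Matrix.mul_sub, Matrix.sub_mul, smul_sub, Matrix.smul_mul, Matrix.one_mul,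
          Matrix.mul_smul, Matrix.mul_one, Matrix.smul_mul]
        abel
      rw [h1]
      exact (hconj _ ih).add (haW.smul ha.le)
  have hq : ∀ x : Fin n → ℝ, ∃ l, Tendsto (fun k => x ⬝ᵥ (X k *ᵥ x)) atTop (𝓝 l) := by
    intro x
    refine ⟨_, tendsto_atTop_ciInf (antitone_nat_of_succ_le fun k => ?_) ⟨0, ?_⟩⟩
    · have := (hanti k).dotProduct_mulVec_nonneg x
      rw [star_trivial, sub_mulVec, dotProduct_sub] at this
      linarith
    · rintro _ ⟨k, rfl⟩
      have := (hXpsd k).dotProduct_mulVec_nonneg x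
      simpa using this
  have hXt : ∀ k i j, X k i j = X k j i := by
    intro k i j
    have := (hXpsd k).1.apply j i
    simpa using this
  have hent : ∀ i j, ∃ l, Tendsto (fun k => X k i j) atTop (𝓝 l) := by
    intro i j
    obtain ⟨l1, h1⟩ := hq (Pi.single i 1 + Pi.single j 1)
    obtain ⟨l2, h2⟩ := hq (Pi.single i 1)
    obtain ⟨l3, h3⟩ := hq (Pi.single j 1)
    refine ⟨(l1 - l2 - l3) / 2, ?_⟩
    refine (((h1.sub h2).sub h3).div_const 2).congr fun k => ?_
    have e1 : ∀ i' j' : Fin n, (Pi.single i' (1:ℝ)) ⬝ᵥ (X k *ᵥ Pi.single j' 1) = X k i' j' := by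
      intro i' j'
      rw [mulVec_single_one, single_one_dotProduct]
      rfl
    rw [mulVec_add, dotProduct_add, add_dotProduct, add_dotProduct, e1, e1, e1, e1, hXt k j i]
    ring
  choose l hl using hent
  set Y : Matrix (Fin n) (Fin n) ℝ := Matrix.of l with hY
  have hYe : ∀ i j, Tendsto (fun k => X k i j) atTop (𝓝 (Y i j)) := hl
  have hquad : ∀ x : Fin n → ℝ, Tendsto (fun k => x ⬝ᵥ (X k *ᵥ x)) atTop (𝓝 (x ⬝ᵥ (Y *ᵥ x))) := by
    intro x
    simp only [dotProduct, mulVec]
    exact tendsto_finsetSum _ fun i _ => (tendsto_finsetSum _ fun j _ =>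
      (hYe i j).mul_const _).const_mul _
  have hlow2 : ∀ x : Fin n → ℝ, a * (x ⬝ᵥ x) ≤ x ⬝ᵥ (Y *ᵥ x) := by
    intro x
    apply ge_of_tendsto' (hquad x)
    intro k
    have := (hlow k).dotProduct_mulVec_nonneg x
    rw [star_trivial, sub_mulVec, smul_mulVec, one_mulVec, dotProduct_sub, dotProduct_smul,
      smul_eq_mul] at this
    linarith
  have hYpsd : Y.PosSemidef := by
    refine Matrix.PosSemidef.of_dotProduct_mulVec_nonneg ?_ ?_
    · ext i j
      rw [conjTranspose_apply, star_trivial]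
      exact tendsto_nhds_unique (hYe j i) ((hYe i j).congr fun k => hXt k i j)
    · intro x
      rw [star_trivial]
      have h1 : 0 ≤ x ⬝ᵥ x := Finset.sum_nonneg fun i _ => mul_self_nonneg _
      nlinarith [hlow2 x, mul_nonneg ha.le h1]
  refine ⟨Y, hYpsd, ?_, ?_⟩
  · intro x hx
    have h1 := hlow2 x
    rw [hx, dotProduct_zero] at h1
    have h2 : 0 ≤ x ⬝ᵥ x := Finset.sum_nonneg fun i _ => mul_self_nonneg _
    have h3 : x ⬝ᵥ x = 0 := by nlinarith
    exact dotProduct_self_eq_zero.mp h3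
  · ext i j
    have h1 : Tendsto (fun k => (X (k + 1) * X (k + 1)) i j) atTop (𝓝 ((Y * Y) i j)) := by
      simp only [Matrix.mul_apply]
      exact tendsto_finsetSum _ fun k' _ =>
        ((hYe i k').comp (tendsto_add_atTop_nat 1)).mul ((hYe k' j).comp (tendsto_add_atTop_nat 1))
    have h2 : Tendsto (fun k => (L * X k * Lᵀ) i j) atTop (𝓝 ((L * Y * Lᵀ) i j)) := by
      simp only [Matrix.mul_apply]
      exact tendsto_finsetSum _ fun k' _ => (tendsto_finsetSum _ fun j' _ =>
        (hYe j' k').const_mul _).mul_const _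
    have h3 : (fun k => (X (k + 1) * X (k + 1)) i j) = fun k => (L * X k * Lᵀ) i j := by
      funext k; rw [hXsq]
    rw [h3] at h1
    exact tendsto_nhds_unique h1 h2

/-- existence of a positive definite solution of `M K M = D M D` -/
lemma exists_pd (K J D E : Matrix (Fin n) (Fin n) ℝ) (hK : K.PosSemidef) (hKJ : K * J = 1)
    (hDE : D * E = 1) (hDt : Dᵀ = D) :
    ∃ M : Matrix (Fin n) (Fin n) ℝ, M.PosSemidef ∧ (∀ x : Fin n → ℝ, M *ᵥ x = 0 → x = 0) ∧
      M * K * M = D * M * D := by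
  obtain ⟨R, hR, hRR⟩ := sqrt_exists K hK
  have hRt : Rᵀ = R := by
    have := hR.1
    rwa [IsHermitian, conjTranspose_eq_transpose_of_trivial] at this
  set S := R * J with hS
  have hRS : R * S = 1 := by rw [hS, ← Matrix.mul_assoc, hRR, hKJ]
  have hSR : S * R = 1 := mul_eq_one_comm.mp hRS
  have hSt : Sᵀ = S := by
    have h1 : Sᵀ * R = 1 := by
      have := congrArg transpose hRS
      rwa [transpose_mul, hRt, transpose_one] at this
    calc Sᵀ = Sᵀ * (R * S) := by rw [hRS, Matrix.mul_one]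
      _ = (Sᵀ * R) * S := by simp only [Matrix.mul_assoc]
      _ = S := by rw [h1, Matrix.one_mul]
  have hLL : (R * D * S) * (R * E * S) = 1 := by
    calc (R * D * S) * (R * E * S) = R * D * (S * R) * E * S := by simp only [Matrix.mul_assoc]
      _ = R * (D * E) * S := by rw [hSR, Matrix.mul_one]; simp only [Matrix.mul_assoc]
      _ = 1 := by rw [hDE, Matrix.mul_one, hRS]
  obtain ⟨X, hX, hXinj, hXX⟩ := exists_sol (R * D * S) (R * E * S) hLL
  refine ⟨S * X * S, ?_, ?_, ?_⟩
  · have := hX.mul_mul_conjTranspose_same S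
    rwa [conjTranspose_eq_transpose_of_trivial, hSt] at this
  · intro x hx
    have h1 : X *ᵥ (S *ᵥ x) = 0 := by
      have h2 : R *ᵥ ((S * X * S) *ᵥ x) = 0 := by rw [hx, mulVec_zero]
      rw [mulVec_mulVec] at h2
      rw [mulVec_mulVec]
      have h3 : R * (S * X * S) = X * S := by
        calc R * (S * X * S) = (R * S) * (X * S) := by simp only [Matrix.mul_assoc]
          _ = X * S := by rw [hRS, Matrix.one_mul]
      rwa [h3] at h2
    have h4 := hXinj _ h1
    have h5 : R *ᵥ (S *ᵥ x) = x := by rw [mulVec_mulVec, hRS, one_mulVec]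
    rw [← h5, h4, mulVec_zero]
  · calc S * X * S * K * (S * X * S) = S * X * (S * R) * (R * S) * X * S := by
          rw [← hRR]; simp only [Matrix.mul_assoc]
      _ = S * (X * X) * S := by
          rw [hSR, hRS, Matrix.mul_one, Matrix.mul_one]; simp only [Matrix.mul_assoc]
      _ = S * (R * D * S * X * (R * D * S)ᵀ) * S := by rw [hXX]
      _ = (S * R) * D * S * X * S * D * (R * S) := by
          simp only [transpose_mul, hRt, hDt, hSt, Matrix.mul_assoc]
      _ = D * (S * X * S) * D := by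
          rw [hSR, hRS, Matrix.one_mul, Matrix.mul_one]; simp only [Matrix.mul_assoc]

end existence2

section parametrization

/-- `(P, d)` is admissible: `P` is an orthogonal projection, `d` is positive, `P` commutes with
`diag d`, and `P` does not fix the vector `1` -/
def Admissible (P : Matrix (Fin n) (Fin n) ℝ) (d : Fin n → ℝ) : Prop :=
  Pᵀ = P ∧ P * P = P ∧ (∀ i, 0 < d i) ∧ (∀ i j, d i ≠ d j → P i j = 0) ∧
    P *ᵥ (fun _ => 1) ≠ fun _ => 1

/-- `A` is a positive semidefinite solution of `A H A = D A D` with the kernel of `P` -/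
def Solves (P : Matrix (Fin n) (Fin n) ℝ) (d : Fin n → ℝ) (A : Matrix (Fin n) (Fin n) ℝ) : Prop :=
  A.PosSemidef ∧ (∀ x : Fin n → ℝ, A *ᵥ x = 0 ↔ P *ᵥ x = 0) ∧
    A * cen n * A = diagonal d * A * diagonal d

lemma exists_unique_sol (hn : 0 < n) (P : Matrix (Fin n) (Fin n) ℝ) (d : Fin n → ℝ)
    (hadm : Admissible P d) : ∃! A : Matrix (Fin n) (Fin n) ℝ, Solves P d A := by
  obtain ⟨hPt, hPP, hpos, hblock, hP1⟩ := hadm
  have tr : ∀ X : Matrix (Fin n) (Fin n) ℝ, X.PosSemidef → Xᵀ = X := by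
    intro X hX
    have := hX.1
    rwa [IsHermitian, conjTranspose_eq_transpose_of_trivial] at this
  set Q : Matrix (Fin n) (Fin n) ℝ := 1 - P with hQ
  have hQt : Qᵀ = Q := by rw [hQ, transpose_sub, transpose_one, hPt]
  have hPQ : P * Q = 0 := by rw [hQ, Matrix.mul_sub, Matrix.mul_one, hPP, sub_self]
  have hQP : Q * P = 0 := by rw [hQ, Matrix.sub_mul, Matrix.one_mul, hPP, sub_self]
  have hQQ : Q * Q = Q := by
    calc Q * Q = (1 - P) * Q := by rw [← hQ]
      _ = Q := by rw [Matrix.sub_mul, Matrix.one_mul, hPQ, sub_zero]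
  have hP1Q : P = 1 - Q := by rw [hQ]; abel
  set D := diagonal d with hD
  have hDt : Dᵀ = D := diagonal_transpose _
  set E : Matrix (Fin n) (Fin n) ℝ := diagonal (fun i => (d i)⁻¹) with hE
  have hDE : D * E = 1 := by
    rw [hD, hE, diagonal_mul_diagonal, ← diagonal_one]
    congr 1
    ext i
    exact mul_inv_cancel₀ (hpos i).ne'
  have hED : E * D = 1 := mul_eq_one_comm.mp hDE
  have hPD : P * D = D * P := by
    ext i j
    rw [hD, mul_diagonal, diagonal_mul]
    by_cases h0 : d i = d j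
    · rw [h0]; ring
    · rw [hblock i j h0]; ring
  have hDQ : D * Q = Q * D := by
    rw [hQ, Matrix.mul_sub, Matrix.sub_mul, Matrix.mul_one, Matrix.one_mul, hPD]
  set S := D * Q * D with hS
  have hSpsd : S.PosSemidef := by
    have h1 : S = (Q * D)ᴴ * (Q * D) := by
      rw [conjTranspose_eq_transpose_of_trivial, transpose_mul, hQt, hDt, hS]
      calc D * Q * D = D * (Q * Q) * D := by rw [hQQ]
        _ = D * Q * (Q * D) := by simp only [Matrix.mul_assoc]
    rw [h1]
    exact posSemidef_conjTranspose_mul_self _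
  have hEES : E * E * S = Q := by
    calc E * E * S = E * ((E * D) * Q * D) := by rw [hS]; simp only [Matrix.mul_assoc]
      _ = E * (D * Q) := by rw [hED, Matrix.one_mul, hDQ]
      _ = Q := by rw [← Matrix.mul_assoc, hED, Matrix.one_mul]
  set K : Matrix (Fin n) (Fin n) ℝ := P * cen n * P + Q with hK
  have hcenpsd : (cen n).PosSemidef := by
    have h1 : cen n = (cen n)ᴴ * cen n := by
      rw [conjTranspose_eq_transpose_of_trivial, cen_t, cen_sq hn]
    rw [h1]; exact posSemidef_conjTranspose_mul_self _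
  have hPcP : (P * cen n * P).PosSemidef := by
    have := hcenpsd.mul_mul_conjTranspose_same P
    rwa [conjTranspose_eq_transpose_of_trivial, hPt] at this
  have hQpsd : Q.PosSemidef := by
    have h1 : Q = Qᴴ * Q := by rw [conjTranspose_eq_transpose_of_trivial, hQt, hQQ]
    rw [h1]; exact posSemidef_conjTranspose_mul_self _
  have hKpsd : K.PosSemidef := hPcP.add hQpsd
  have hS' : S = Q * (D * D) := by rw [hS, hDQ, Matrix.mul_assoc]
  have hDD : D * D * Q = Q * (D * D) := by
    rw [Matrix.mul_assoc, hDQ, ← Matrix.mul_assoc, hDQ, Matrix.mul_assoc]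
  have hDDQ : S * S = D * S * D := by
    calc S * S = Q * (D * D) * (Q * (D * D)) := by rw [hS']
      _ = Q * (D * D * Q) * (D * D) := by simp only [Matrix.mul_assoc]
      _ = Q * (Q * (D * D)) * (D * D) := by rw [hDD]
      _ = (Q * Q) * (D * D) * (D * D) := by simp only [Matrix.mul_assoc]
      _ = Q * (D * D) * (D * D) := by rw [hQQ]
      _ = (Q * D) * (D * D) * D := by simp only [Matrix.mul_assoc]
      _ = (D * Q) * (D * D) * D := by rw [hDQ]
      _ = D * (Q * (D * D)) * D := by simp only [Matrix.mul_assoc]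
      _ = D * S * D := by rw [hS']
  have hSP : S * P = 0 := by
    calc S * P = D * Q * (D * P) := by rw [hS]; simp only [Matrix.mul_assoc]
      _ = D * (Q * P) * D := by rw [← hPD]; simp only [Matrix.mul_assoc]
      _ = 0 := by rw [hQP]; simp
  have hPS : P * S = 0 := by
    calc P * S = (P * D) * Q * D := by rw [hS]; simp only [Matrix.mul_assoc]
      _ = D * (P * Q) * D := by rw [hPD]; simp only [Matrix.mul_assoc]
      _ = 0 := by rw [hPQ]; simp
  have hSQ : S * Q = S := by
    calc S * Q = Q * (D * D * Q) := by rw [hS']; simp only [Matrix.mul_assoc]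
      _ = Q * (Q * (D * D)) := by rw [hDD]
      _ = S := by rw [← Matrix.mul_assoc, hQQ, hS']
  have heq : ∀ X : Matrix (Fin n) (Fin n) ℝ, X * P = X → P * X = X → X * Q = 0 →
      X * cen n * X = D * X * D → (X + S) * K * (X + S) = D * (X + S) * D := by
    intro X hXP hPX hXQ hXe
    have hSX : S * X = 0 := by rw [← hPX, ← Matrix.mul_assoc, hSP, Matrix.zero_mul]
    have h1 : (X + S) * K = X * cen n * P + S := by
      rw [hK, Matrix.add_mul, Matrix.mul_add, Matrix.mul_add, hXQ, hSQ]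
      rw [show X * (P * cen n * P) = (X * P) * cen n * P by simp only [Matrix.mul_assoc],
        show S * (P * cen n * P) = (S * P) * cen n * P by simp only [Matrix.mul_assoc], hXP, hSP]
      simp
    rw [h1, Matrix.add_mul, Matrix.mul_add, Matrix.mul_add, hSX, hDDQ,
      Matrix.mul_assoc (X * cen n) P X, hPX, hXe, Matrix.mul_assoc (X * cen n) P S, hPS,
      Matrix.mul_zero, add_zero, zero_add, Matrix.mul_add, Matrix.add_mul]
  have hinjM : ∀ X : Matrix (Fin n) (Fin n) ℝ, X.PosSemidef →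
      (∀ x : Fin n → ℝ, X *ᵥ x = 0 → P *ᵥ x = 0) →
      ∀ x : Fin n → ℝ, (X + S) *ᵥ x = 0 → x = 0 := by
    intro X hX hXA x hx
    obtain ⟨h1, h2⟩ := psd_add_zero X S hX hSpsd x hx
    have h3 : Q *ᵥ x = 0 := by rw [← hEES, ← mulVec_mulVec, h2, mulVec_zero]
    have h4 : P *ᵥ x = 0 := hXA x h1
    have h5 : x = P *ᵥ x + Q *ᵥ x := by
      rw [← add_mulVec, hQ]; simp
    rw [h5, h3, h4, add_zero]
  have hinjK : ∀ x : Fin n → ℝ, K *ᵥ x = 0 → x = 0 := by
    intro x hx
    obtain ⟨h1, h2⟩ := psd_add_zero _ Q hPcP hQpsd x hx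
    have h5 : x = P *ᵥ x := by
      have : x = P *ᵥ x + Q *ᵥ x := by rw [← add_mulVec, hQ]; simp
      rw [h2, add_zero] at this
      exact this
    have h6 : star x ⬝ᵥ (cen n *ᵥ x) = 0 := by
      have h7 : x ⬝ᵥ ((P * cen n * P) *ᵥ x) = 0 := by rw [h1, dotProduct_zero]
      rw [← mulVec_mulVec, ← mulVec_mulVec, ← h5, dotProduct_mulVec, ← mulVec_transpose, hPt,
        ← h5] at h7
      rw [star_trivial]; exact h7
    have h7 := (hcenpsd.dotProduct_mulVec_zero_iff x).mp h6
    have h8 := cen_mulVec_zero x h7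
    set c := (∑ k, x k) / n with hc
    by_cases hc0 : c = 0
    · ext i; rw [h8 i, hc0]; rfl
    · exfalso
      apply hP1
      have h9 : (fun _ : Fin n => (1:ℝ)) = c⁻¹ • x := by
        ext i
        rw [Pi.smul_apply, h8 i, smul_eq_mul, inv_mul_cancel₀ hc0]
      rw [h9, mulVec_smul, ← h5]
  have hKinv := inv_of_inj K hinjK
  -- facts on solutions
  have hfacts : ∀ X : Matrix (Fin n) (Fin n) ℝ, Solves P d X →
      X * P = X ∧ P * X = X ∧ X * Q = 0 := by
    intro X hX
    have hXt := tr X hX.1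
    have h1 : X * Q = 0 := mat_zero _ fun x => by
      rw [← mulVec_mulVec]
      apply (hX.2.1 _).mpr
      rw [mulVec_mulVec, hPQ, zero_mulVec]
    have h2 : Q * X = 0 := by
      have := congrArg transpose h1
      rwa [transpose_mul, hQt, hXt, transpose_zero] at this
    refine ⟨?_, ?_, h1⟩
    · rw [hP1Q, Matrix.mul_sub, Matrix.mul_one, h1, sub_zero]
    · rw [hP1Q, Matrix.sub_mul, Matrix.one_mul, h2, sub_zero]
  -- existence
  obtain ⟨M, hM, hMinj, hMM⟩ := exists_pd K K⁻¹ D E hKpsd hKinv hDE hDt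
  set V : Matrix (Fin n) (Fin n) ℝ := P - Q with hV
  have hVt : Vᵀ = V := by rw [hV, transpose_sub, hPt, hQt]
  have hVP : V * P = P := by rw [hV, Matrix.sub_mul, hPP, hQP, sub_zero]
  have hPV : P * V = P := by rw [hV, Matrix.mul_sub, hPP, hPQ, sub_zero]
  have hVQ : V * Q = -Q := by rw [hV, Matrix.sub_mul, hPQ, hQQ, zero_sub]
  have hQV : Q * V = -Q := by rw [hV, Matrix.mul_sub, hQP, hQQ, zero_sub]
  have hVV : V * V = 1 := by
    calc V * V = V * P - V * Q := by conv_lhs => rw [hV, Matrix.mul_sub, ← hV]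
      _ = 1 := by rw [hVP, hVQ, hQ]; abel
  have hVD : V * D = D * V := by
    rw [hV, Matrix.sub_mul, Matrix.mul_sub, hPD, hDQ]
  have hVKV : V * K * V = K := by
    calc V * K * V = (V * P) * cen n * (P * V) + (V * Q) * V := by
          rw [hK, Matrix.mul_add, Matrix.add_mul]; simp only [Matrix.mul_assoc]
      _ = P * cen n * P + (-Q) * V := by rw [hVP, hPV, hVQ]
      _ = K := by rw [Matrix.neg_mul, hQV, neg_neg]
  have hM' : (V * M * V).PosSemidef := by
    have := hM.mul_mul_conjTranspose_same V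
    rwa [conjTranspose_eq_transpose_of_trivial, hVt] at this
  have hM'inj : ∀ x : Fin n → ℝ, (V * M * V) *ᵥ x = 0 → x = 0 := by
    intro x hx
    have h1 : M *ᵥ (V *ᵥ x) = 0 := by
      have h2 : V *ᵥ ((V * M * V) *ᵥ x) = 0 := by rw [hx, mulVec_zero]
      rw [mulVec_mulVec] at h2
      rw [mulVec_mulVec]
      have h3 : V * (V * M * V) = M * V := by
        calc V * (V * M * V) = (V * V) * (M * V) := by simp only [Matrix.mul_assoc]
          _ = M * V := by rw [hVV, Matrix.one_mul]
      rwa [h3] at h2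
    have h4 := hMinj _ h1
    have h5 : V *ᵥ (V *ᵥ x) = x := by rw [mulVec_mulVec, hVV, one_mulVec]
    rw [← h5, h4, mulVec_zero]
  have hM'eq : V * M * V * K * (V * M * V) = D * (V * M * V) * D := by
    calc V * M * V * K * (V * M * V) = V * M * (V * K * V) * M * V := by
          simp only [Matrix.mul_assoc]
      _ = V * (M * K * M) * V := by rw [hVKV]; simp only [Matrix.mul_assoc]
      _ = (V * D) * M * (D * V) := by rw [hMM]; simp only [Matrix.mul_assoc]
      _ = (D * V) * M * (V * D) := by rw [hVD]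
      _ = D * (V * M * V) * D := by simp only [Matrix.mul_assoc]
  have hMV := unique_pd K M (V * M * V) M⁻¹ (V * M * V)⁻¹ K⁻¹ D E hKpsd hM hM' hKinv
    (inv_of_inj _ hMinj) (inv_of_inj _ hM'inj) hDE hKpsd.inv hM.inv hM'.inv hMM hM'eq
  have hcomm : M * V = V * M := by
    calc M * V = V * M * V * V := by rw [← hMV]
      _ = V * M * (V * V) := by simp only [Matrix.mul_assoc]
      _ = V * M := by rw [hVV, Matrix.mul_one]
  have hMP : M * P = P * M := by
    have h1 : V = (2:ℝ) • P - 1 := by rw [hV, hQ, two_smul]; abel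
    rw [h1, Matrix.mul_sub, Matrix.sub_mul, Matrix.mul_smul, Matrix.smul_mul, Matrix.mul_one,
      Matrix.one_mul] at hcomm
    have h2 : (2:ℝ) • (M * P) = (2:ℝ) • (P * M) := sub_left_injective hcomm
    exact smul_right_injective _ (two_ne_zero) h2
  have hPMP : P * M * P = M * P := by rw [← hMP, Matrix.mul_assoc, hPP]
  refine ⟨M * P, ⟨?_, ?_, ?_⟩, ?_⟩
  · have := hM.mul_mul_conjTranspose_same P
    rwa [conjTranspose_eq_transpose_of_trivial, hPt, hPMP] at this
  · intro x
    rw [← mulVec_mulVec]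
    constructor
    · exact fun h => hMinj _ h
    · intro h; rw [h, mulVec_zero]
  · have hKP : K * P = P * cen n * P := by
      rw [hK, Matrix.add_mul, hQP, add_zero, Matrix.mul_assoc (P * cen n), hPP]
    calc M * P * cen n * (M * P) = M * (P * cen n * P) * M := by
          rw [hMP]
          simp only [Matrix.mul_assoc]
          rw [← Matrix.mul_assoc M P, hMP]
          simp only [Matrix.mul_assoc]
      _ = M * K * (P * M) := by rw [← hKP]; simp only [Matrix.mul_assoc]
      _ = (M * K * M) * P := by rw [← hMP]; simp only [Matrix.mul_assoc]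
      _ = D * M * (D * P) := by rw [hMM]; simp only [Matrix.mul_assoc]
      _ = D * (M * P) * D := by rw [← hPD]; simp only [Matrix.mul_assoc]
  · intro B hB
    have hA : Solves P d (M * P) := ⟨by
        have := hM.mul_mul_conjTranspose_same P
        rwa [conjTranspose_eq_transpose_of_trivial, hPt, hPMP] at this, by
        intro x
        rw [← mulVec_mulVec]
        constructor
        · exact fun h => hMinj _ h
        · intro h; rw [h, mulVec_zero], by
        have hKP : K * P = P * cen n * P := by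
          rw [hK, Matrix.add_mul, hQP, add_zero, Matrix.mul_assoc (P * cen n), hPP]
        calc M * P * cen n * (M * P) = M * (P * cen n * P) * M := by
              rw [hMP]
              simp only [Matrix.mul_assoc]
              rw [← Matrix.mul_assoc M P, hMP]
              simp only [Matrix.mul_assoc]
          _ = M * K * (P * M) := by rw [← hKP]; simp only [Matrix.mul_assoc]
          _ = (M * K * M) * P := by rw [← hMP]; simp only [Matrix.mul_assoc]
          _ = D * M * (D * P) := by rw [hMM]; simp only [Matrix.mul_assoc]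
          _ = D * (M * P) * D := by rw [← hPD]; simp only [Matrix.mul_assoc]⟩
    obtain ⟨a1, a2, a3⟩ := hfacts _ hA
    obtain ⟨b1, b2, b3⟩ := hfacts _ hB
    have hfin := unique_pd K (B + S) (M * P + S) (B + S)⁻¹ (M * P + S)⁻¹ K⁻¹ D E hKpsd
      (hB.1.add hSpsd) (hA.1.add hSpsd) hKinv
      (inv_of_inj _ (hinjM B hB.1 fun x h => (hB.2.1 x).mp h))
      (inv_of_inj _ (hinjM _ hA.1 fun x h => (hA.2.1 x).mp h)) hDE hKpsd.inv
      (hB.1.add hSpsd).inv (hA.1.add hSpsd).inv (heq B b1 b2 b3 hB.2.2)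
      (heq _ a1 a2 a3 hA.2.2)
    exact add_right_cancel hfin

/-- the entries of `A H A` -/
lemma cen_entry (A : Matrix (Fin n) (Fin n) ℝ) (hA : Aᵀ = A) (i j : Fin n) :
    (A * cen n * A) i j = cov A i j := by
  unfold cov cen
  rw [Matrix.mul_sub, Matrix.mul_one, Matrix.sub_mul, Matrix.sub_apply, Matrix.mul_smul,
    Matrix.smul_mul, Matrix.smul_apply, smul_eq_mul]
  congr 1
  have h1 : (A * vecMulVec (fun _ : Fin n => (1:ℝ)) (fun _ : Fin n => (1:ℝ)) * A) i j
      = (∑ k, A i k) * ∑ k, A j k := by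
    rw [Matrix.mul_apply, Finset.mul_sum]
    apply Finset.sum_congr rfl
    intro k _
    have hs : A k j = A j k := by
      have := congrFun (congrFun hA j) k
      rw [transpose_apply] at this
      exact this
    rw [Matrix.mul_apply, hs]
    simp [vecMulVec_apply]
  rw [h1]; ring

lemma of_solves (hn : 0 < n) (P : Matrix (Fin n) (Fin n) ℝ) (d : Fin n → ℝ)
    (A : Matrix (Fin n) (Fin n) ℝ) (hadm : Admissible P d) (hsol : Solves P d A)
    (hdiag : ∀ i, A i i = 1) : IsCorrelation A ∧ corrMap A = A ∧ dev A = d := by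
  have hA : IsCorrelation A := ⟨hsol.1, hdiag⟩
  have hAt : Aᵀ = A := by
    have := hsol.1.1
    rwa [IsHermitian, conjTranspose_eq_transpose_of_trivial] at this
  have hcov : ∀ i j, cov A i j = d i * A i j * d j := by
    intro i j
    rw [← cen_entry A hAt, hsol.2.2, mul_diagonal, diagonal_mul]
  have hdev : ∀ i, dev A i = d i := by
    intro i
    have h1 := dev_sq hn A hA i
    rw [hcov, hdiag i, mul_one] at h1
    have h2 : 0 ≤ dev A i := Real.sqrt_nonneg _
    have h3 := hadm.2.2.1 i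
    nlinarith
  refine ⟨hA, ?_, funext hdev⟩
  ext i j
  rw [corrMap_eq hn A hA, hcov, hdev, hdev]
  have h3 := (hadm.2.2.1 i).ne'
  have h4 := (hadm.2.2.1 j).ne'
  field_simp

lemma to_solves (hn : 0 < n) (A : Matrix (Fin n) (Fin n) ℝ) (hA : IsCorrelation A)
    (hfA : corrMap A = A) : ∃ P : Matrix (Fin n) (Fin n) ℝ,
      Admissible P (dev A) ∧ Solves P (dev A) A := by
  obtain ⟨hpos, -⟩ := fixed_facts hn A hA hfA
  obtain ⟨G, hGt, hAG, hAGA⟩ := pinv A hA.1.1
  have hAt : Aᵀ = A := by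
    have := hA.1.1
    rwa [IsHermitian, conjTranspose_eq_transpose_of_trivial] at this
  have hPt : (A * G)ᵀ = A * G := by rw [transpose_mul, hGt, hAt, ← hAG]
  have hAP : A * (A * G) = A := by rw [hAG, ← Matrix.mul_assoc, hAGA]
  have hPP : (A * G) * (A * G) = A * G := by
    calc (A * G) * (A * G) = (A * G * A) * G := by simp only [Matrix.mul_assoc]
      _ = A * G := by rw [hAGA]
  have hker : ∀ x : Fin n → ℝ, A *ᵥ x = 0 ↔ (A * G) *ᵥ x = 0 := by
    intro x
    constructor
    · intro h; rw [hAG, ← mulVec_mulVec, h, mulVec_zero]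
    · intro h
      have : A *ᵥ ((A * G) *ᵥ x) = 0 := by rw [h, mulVec_zero]
      rwa [mulVec_mulVec, hAP] at this
  have hADQ : A * diagonal (dev A) * (1 - A * G) = 0 := mat_zero _ fun x => by
    rw [← mulVec_mulVec, ← mulVec_mulVec]
    have h0 : A *ᵥ ((1 - A * G) *ᵥ x) = 0 := by
      rw [mulVec_mulVec, Matrix.mul_sub, Matrix.mul_one, hAP, sub_self, zero_mulVec]
    have h1 := fixed_mulVec hn A hA hfA ((1 - A * G) *ᵥ x) 0 h0
    have h2 : diagonal (dev A) *ᵥ ((1 - A * G) *ᵥ x)
        = fun i => dev A i * ((1 - A * G) *ᵥ x) i := by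
      ext i; rw [mulVec_diagonal]
    rw [h2]; exact h1
  have hPDQ : A * G * diagonal (dev A) * (1 - A * G) = 0 := by
    calc A * G * diagonal (dev A) * (1 - A * G)
        = (G * A) * diagonal (dev A) * (1 - A * G) := by rw [← hAG]
      _ = G * (A * diagonal (dev A) * (1 - A * G)) := by simp only [Matrix.mul_assoc]
      _ = 0 := by rw [hADQ, Matrix.mul_zero]
  have hPD1 : A * G * diagonal (dev A) = A * G * diagonal (dev A) * (A * G) := by
    rw [Matrix.mul_sub, Matrix.mul_one] at hPDQ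
    exact sub_eq_zero.mp hPDQ
  have hPD2 : diagonal (dev A) * (A * G) = A * G * diagonal (dev A) * (A * G) := by
    have := congrArg transpose hPD1
    rw [transpose_mul, transpose_mul (A * G * diagonal (dev A)), transpose_mul (A * G), hPt,
      diagonal_transpose] at this
    rw [this]; simp only [Matrix.mul_assoc]
  refine ⟨A * G, ⟨hPt, hPP, hpos, ?_, ?_⟩, hA.1, hker, fixed_eq hn A hA hfA⟩
  · intro i j hij
    have h1 := congrFun (congrFun (hPD1.trans hPD2.symm) i) j
    rw [mul_diagonal, diagonal_mul] at h1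
    have h2 : (A * G) i j * (dev A i - dev A j) = 0 := by linarith
    exact (mul_eq_zero.mp h2).resolve_right (sub_ne_zero.mpr hij)
  · intro h
    rw [← mulVec_mulVec] at h
    exact one_not_range hn A hA hfA _ h

end parametrization

/-- the admissible pair of a fixed point is unique -/
lemma pair_unique (hn : 0 < n) (A P P' : Matrix (Fin n) (Fin n) ℝ) (d d' : Fin n → ℝ)
    (hdiag : ∀ i, A i i = 1) (hadm : Admissible P d) (hsol : Solves P d A)
    (hadm' : Admissible P' d') (hsol' : Solves P' d' A) : P = P' ∧ d = d' := by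
  have hk : ∀ x : Fin n → ℝ, P *ᵥ x = 0 ↔ P' *ᵥ x = 0 := fun x =>
    (hsol.2.1 x).symm.trans (hsol'.2.1 x)
  have h1 : P * (1 - P') = 0 := mat_zero _ fun x => by
    rw [← mulVec_mulVec]
    apply (hk _).mpr
    rw [mulVec_mulVec, Matrix.mul_sub, Matrix.mul_one, hadm'.2.1, sub_self, zero_mulVec]
  have h2 : P' * (1 - P) = 0 := mat_zero _ fun x => by
    rw [← mulVec_mulVec]
    apply (hk _).mp
    rw [mulVec_mulVec, Matrix.mul_sub, Matrix.mul_one, hadm.2.1, sub_self, zero_mulVec]
  rw [Matrix.mul_sub, Matrix.mul_one, sub_eq_zero] at h1 h2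
  have h3 := congrArg transpose h1
  rw [transpose_mul, hadm.1, hadm'.1] at h3
  refine ⟨h3.trans h2.symm, ?_⟩
  rw [← (of_solves hn P d A hadm hsol hdiag).2.2, (of_solves hn P' d' A hadm' hsol' hdiag).2.2]

/-- **Main result.** For `n ≥ 1`: every admissible pair `(P, d)` has exactly one solution `A`;
a matrix is a fixed point of the correlation map if and only if it has unit diagonal and is the
solution of an admissible pair; this pair is then unique, and `d` is the vector of row
deviations. -/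
theorem result (n : ℕ) (hn : 0 < n) :
    (∀ (P : Matrix (Fin n) (Fin n) ℝ) (d : Fin n → ℝ), Admissible P d →
      ∃! A : Matrix (Fin n) (Fin n) ℝ, Solves P d A) ∧
    (∀ A : Matrix (Fin n) (Fin n) ℝ, IsCorrelation A ∧ corrMap A = A ↔
      (∀ i, A i i = 1) ∧ ∃ P : Matrix (Fin n) (Fin n) ℝ, ∃ d : Fin n → ℝ,
        Admissible P d ∧ Solves P d A) ∧
    (∀ (A P P' : Matrix (Fin n) (Fin n) ℝ) (d d' : Fin n → ℝ), (∀ i, A i i = 1) →
      Admissible P d → Solves P d A → Admissible P' d' → Solves P' d' A →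
      P = P' ∧ d = d' ∧ d = dev A) := by
  refine ⟨fun P d h => exists_unique_sol hn P d h, fun A => ⟨?_, ?_⟩, ?_⟩
  · rintro ⟨hA, hfA⟩
    obtain ⟨P, hP, hS⟩ := to_solves hn A hA hfA
    exact ⟨hA.2, P, dev A, hP, hS⟩
  · rintro ⟨hdiag, P, d, hP, hS⟩
    obtain ⟨h1, h2, -⟩ := of_solves hn P d A hP hS hdiag
    exact ⟨h1, h2⟩
  · intro A P P' d d' hdiag hP hS hP' hS'
    obtain ⟨h1, h2⟩ := pair_unique hn A P P' d d' hdiag hP hS hP' hS'
    exact ⟨h1, h2, (of_solves hn P d A hP hS hdiag).2.2.symm⟩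

end Pool.Agent.Results.MP_f2d8fc_an.KernelAndDeviations
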