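import Mathlib

/-!
# MP_f2d8fc_an : structure of the fixed points of the Pearson correlation map
-/

namespace Pool.Agent.Results.MP_f2d8fc_an.SplitFixedPoints

open Matrix

variable {n : ℕ}

/-- mean of a vector -/
noncomputable def mean (x : Fin n → ℝ) : ℝ := (∑ k, x k) / n

/-- Pearson correlation -/
noncomputable def corr (x y : Fin n → ℝ) : ℝ :=
  (∑ k, (x k - mean x) * (y k - mean y)) /
    √((∑ k, (x k - mean x) ^ 2) * ∑ k, (y k - mean y) ^ 2)

/-- the correlation map `C` -/
noncomputable def corrMap (A : Matrix (Fin n) (Fin n) ℝ) : Matrix (Fin n) (Fin n) ℝ :=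
  fun i j => corr (A i) (A j)

/-- correlation matrices: real symmetric, positive semidefinite, unit diagonal -/
def IsCorrelation (A : Matrix (Fin n) (Fin n) ℝ) : Prop := A.PosSemidef ∧ ∀ i, A i i = 1

/-- length of the centred `i`-th row -/
noncomputable def dev (A : Matrix (Fin n) (Fin n) ℝ) (i : Fin n) : ℝ :=
  √(∑ k, (A i k - mean (A i)) ^ 2)

/-- `A` is split: its entries vanish between rows with different `dev` -/
def IsSplit (A : Matrix (Fin n) (Fin n) ℝ) : Prop := ∀ i j, dev A i ≠ dev A j → A i j = 0

/-- `A` annihilates the indicator vectors of all classes of rows with equal `dev`, except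
possibly one class -/
def OneClass (A : Matrix (Fin n) (Fin n) ℝ) : Prop :=
  ∃ δ : ℝ, ∀ e : ℝ, e ≠ δ → A *ᵥ (fun j => if dev A j = e then 1 else 0) = 0

/-- the normal form -/
def NormalForm (A : Matrix (Fin n) (Fin n) ℝ) : Prop :=
  ∃ (P : Matrix (Fin n) (Fin n) ℝ) (μ : Fin n → ℝ) (ν : ℝ),
    Pᵀ = P ∧ P * P = P ∧ (∀ i, 0 < μ i) ∧ (∀ i j, μ i ≠ μ j → P i j = 0) ∧
    (∀ i, μ i ≠ ν → ∑ j, P i j = 0) ∧ (∑ i, ∑ j, P i j < n) ∧
    ∀ i j, A i j = μ i * (P i j + (∑ k, P i k) * (∑ k, P j k) / (n - ∑ a, ∑ b, P a b))

/-- If `A` is positive semidefinite, `D` is a positive diagonal matrix and `A² = D A D`, then `A`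
and `D` commute. -/
lemma commute_of_sq (A : Matrix (Fin n) (Fin n) ℝ) (hA : A.PosSemidef) (d : Fin n → ℝ)
    (hd : ∀ i, 0 < d i) (h : A * A = diagonal d * A * diagonal d) :
    A * diagonal d = diagonal d * A := by
  set D := diagonal d with hD
  have hAt : Aᵀ = A := by
    have := hA.1
    rwa [IsHermitian, conjTranspose_eq_transpose_of_trivial] at this
  have hDt : Dᵀ = D := diagonal_transpose d
  set X := A * D - D * A with hX
  have hXt : Xᵀ = -X := by
    rw [hX, transpose_sub, transpose_mul, transpose_mul, hAt, hDt]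
    abel
  -- (A D)² = (D A)²
  have hsq : A * D * (A * D) = D * A * (D * A) := by
    calc A * D * (A * D) = A * (D * A * D) := by simp only [Matrix.mul_assoc]
      _ = A * (A * A) := by rw [h]
      _ = (A * A) * A := by rw [Matrix.mul_assoc]
      _ = D * A * (D * A) := by rw [h]; simp only [Matrix.mul_assoc]
  have hsum : A * D * X + X * (D * A) = 0 := by
    rw [hX, Matrix.mul_sub, Matrix.sub_mul, hsq]
    simp only [Matrix.mul_assoc]
    abel
  -- traces
  have hT1 : 0 ≤ trace (D * ((D * X)ᵀ * A * (D * X))) := by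
    rw [trace]
    apply Finset.sum_nonneg
    intro i _
    rw [diag_apply, hD, diagonal_mul]
    have h1 := (hA.conjTranspose_mul_mul_same (D * X)).diag_nonneg (i := i)
    rw [conjTranspose_eq_transpose_of_trivial] at h1
    exact mul_nonneg (hd i).le h1
  have hT2 : 0 ≤ trace (D * ((X * D) * A * (X * D)ᵀ)) := by
    rw [trace]
    apply Finset.sum_nonneg
    intro i _
    rw [diag_apply, hD, diagonal_mul]
    have h1 := (hA.mul_mul_conjTranspose_same (X * D)).diag_nonneg (i := i)
    rw [conjTranspose_eq_transpose_of_trivial] at h1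
    exact mul_nonneg (hd i).le h1
  have hzero : trace (D * ((D * X)ᵀ * A * (D * X))) + trace (D * ((X * D) * A * (X * D)ᵀ)) = 0 := by
    have e1 : trace (D * ((D * X)ᵀ * A * (D * X))) = trace (D * Xᵀ * D * (A * D * X)) := by
      rw [transpose_mul, hDt]; simp only [Matrix.mul_assoc]
    have e2 : trace (D * ((X * D) * A * (X * D)ᵀ)) = trace (D * Xᵀ * D * (X * (D * A))) := by
      rw [transpose_mul, hDt]
      rw [show D * (X * D * A * (D * Xᵀ)) = (D * (X * D * A)) * (D * Xᵀ) by
        simp only [Matrix.mul_assoc]]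
      rw [trace_mul_comm]
      simp only [Matrix.mul_assoc]
    rw [e1, e2, ← trace_add, ← Matrix.mul_add, hsum, Matrix.mul_zero, trace_zero]
  have hT1z : trace (D * ((D * X)ᵀ * A * (D * X))) = 0 := by linarith
  -- A D X = 0
  have hADX : A * D * X = 0 := by
    have hdiag : ∀ i, ((D * X)ᵀ * A * (D * X)) i i = 0 := by
      intro i
      have h1 : ∀ j ∈ Finset.univ, 0 ≤ (D * ((D * X)ᵀ * A * (D * X))).diag j := by
        intro j _
        rw [diag_apply, hD, diagonal_mul]
        have h1 := (hA.conjTranspose_mul_mul_same (D * X)).diag_nonneg (i := j)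
        rw [conjTranspose_eq_transpose_of_trivial] at h1
        exact mul_nonneg (hd j).le h1
      have h2 := (Finset.sum_eq_zero_iff_of_nonneg h1).mp hT1z i (Finset.mem_univ i)
      rw [diag_apply, hD, diagonal_mul] at h2
      exact (mul_eq_zero.mp h2).resolve_left (hd i).ne'
    have hcol : ∀ i, A *ᵥ (fun k => (D * X) k i) = 0 := by
      intro i
      have h1 := (hA.dotProduct_mulVec_zero_iff (fun k => (D * X) k i)).mp
      apply h1
      have h2 := hdiag i
      rw [Matrix.mul_assoc] at h2
      simp only [star_trivial]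
      rw [← h2]
      simp only [Matrix.mul_apply, transpose_apply, dotProduct, mulVec]
    rw [Matrix.mul_assoc]
    ext i j
    have := congrFun (hcol j) i
    simpa [Matrix.mul_apply, mulVec, dotProduct] using this
  -- conclude X = 0
  have hkey : A * D * (A * D) = A * D * (D * A) := by
    have : A * D * X = A * D * (A * D) - A * D * (D * A) := by rw [hX, Matrix.mul_sub]
    rw [this] at hADX
    exact sub_eq_zero.mp hADX
  have htr : trace (Xᴴ * X) = 0 := by
    rw [conjTranspose_eq_transpose_of_trivial, hXt, hX]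
    have : -(A * D - D * A) * (A * D - D * A)
        = -(A * D * (A * D)) + A * D * (D * A) + D * A * (A * D) - D * A * (D * A) := by
      noncomm_ring
    rw [this, trace_sub, trace_add, trace_add, trace_neg, ← hsq, trace_mul_comm (D * A) (A * D),
      ← hkey]
    ring
  have hX0 : X = 0 := trace_conjTranspose_mul_self_eq_zero_iff.mp htr
  exact sub_eq_zero.mp hX0


/-- the matrix `A H A`, for symmetric `A` -/
noncomputable def cov (A : Matrix (Fin n) (Fin n) ℝ) (i j : Fin n) : ℝ :=
  (A * A) i j - (∑ k, A i k) * (∑ k, A j k) / n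

lemma symm_of (A : Matrix (Fin n) (Fin n) ℝ) (hA : IsCorrelation A) (a b : Fin n) :
    A a b = A b a := by
  have := hA.1.1.apply a b
  simpa using this.symm

lemma cov_eq (hn : 0 < n) (A : Matrix (Fin n) (Fin n) ℝ) (hA : IsCorrelation A) (i j : Fin n) :
    ∑ k, (A i k - mean (A i)) * (A j k - mean (A j)) = cov A i j := by
  have hn' : (n : ℝ) ≠ 0 := by exact_mod_cast hn.ne'
  have h1 : ∀ k, (A i k - mean (A i)) * (A j k - mean (A j))
      = A i k * A k j - mean (A j) * A i k - mean (A i) * A j k + mean (A i) * mean (A j) := by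
    intro k; rw [symm_of A hA k j]; ring
  simp only [h1]
  rw [Finset.sum_add_distrib, Finset.sum_sub_distrib, Finset.sum_sub_distrib, ← Finset.mul_sum,
    ← Finset.mul_sum, Finset.sum_const, Finset.card_univ, Fintype.card_fin, nsmul_eq_mul]
  unfold cov mean
  rw [Matrix.mul_apply]
  field_simp
  ring

lemma dev_sq (hn : 0 < n) (A : Matrix (Fin n) (Fin n) ℝ) (hA : IsCorrelation A) (i : Fin n) :
    dev A i * dev A i = cov A i i := by
  unfold dev
  rw [Real.mul_self_sqrt (Finset.sum_nonneg fun k _ => sq_nonneg _), ← cov_eq hn A hA]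
  exact Finset.sum_congr rfl fun k _ => by ring

lemma corrMap_eq (hn : 0 < n) (A : Matrix (Fin n) (Fin n) ℝ) (hA : IsCorrelation A)
    (i j : Fin n) : corrMap A i j = cov A i j / (dev A i * dev A j) := by
  unfold corrMap corr dev
  rw [cov_eq hn A hA, Real.sqrt_mul (Finset.sum_nonneg fun k _ => sq_nonneg _)]

lemma fixed_facts (hn : 0 < n) (A : Matrix (Fin n) (Fin n) ℝ) (hA : IsCorrelation A)
    (h : corrMap A = A) :
    (∀ i, 0 < dev A i) ∧ ∀ i j, cov A i j = dev A i * A i j * dev A j := by
  have hpos : ∀ i, 0 < dev A i := by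
    intro i
    have h0 : 0 ≤ dev A i := Real.sqrt_nonneg _
    rcases h0.lt_or_eq with h1 | h1
    · exact h1
    · exfalso
      have h2 := congrFun (congrFun h i) i
      rw [corrMap_eq hn A hA, ← h1, hA.2 i] at h2
      simp at h2
  refine ⟨hpos, fun i j => ?_⟩
  have h2 := congrFun (congrFun h i) j
  rw [corrMap_eq hn A hA, div_eq_iff (mul_pos (hpos i) (hpos j)).ne'] at h2
  rw [h2]; ring

/-- `A H A = D A D` applied to a vector -/
lemma fixed_mulVec (hn : 0 < n) (A : Matrix (Fin n) (Fin n) ℝ) (hA : IsCorrelation A)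
    (h : corrMap A = A) (x : Fin n → ℝ) (c : ℝ) (hx : A *ᵥ x = fun _ => c) :
    A *ᵥ (fun i => dev A i * x i) = 0 := by
  obtain ⟨hpos, hcov⟩ := fixed_facts hn A hA h
  have hn' : (n : ℝ) ≠ 0 := by exact_mod_cast hn.ne'
  have hxi : ∀ i, ∑ j, A i j * x j = c := by
    intro i
    have := congrFun hx i
    simpa [mulVec, dotProduct] using this
  ext i
  have h1 : ∑ j, cov A i j * x j = 0 := by
    have e1 : ∀ j, cov A i j * x j
        = (∑ k, A i k * (A k j * x j)) - (∑ k, A i k) / n * ∑ k, A k j * x j := by
      intro j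
      unfold cov
      rw [Matrix.mul_apply, sub_mul, Finset.sum_mul]
      congr 1
      · exact Finset.sum_congr rfl fun k _ => by ring
      · rw [← Finset.sum_mul]
        rw [show (∑ k, A j k) = ∑ k, A k j from Finset.sum_congr rfl fun k _ => symm_of A hA j k]
        ring
    have e2 : ∀ k, ∑ j, A i k * (A k j * x j) = A i k * c := by
      intro k; rw [← Finset.mul_sum, hxi k]
    have e3 : ∑ j, ∑ k, A i k * (A k j * x j) = (∑ k, A i k) * c := by
      rw [Finset.sum_comm, Finset.sum_congr rfl fun k _ => e2 k, Finset.sum_mul]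
    have e4 : ∑ j, ∑ k, A k j * x j = n * c := by
      rw [Finset.sum_comm, Finset.sum_congr rfl fun k _ => hxi k]
      simp
    simp only [e1]
    rw [Finset.sum_sub_distrib, ← Finset.mul_sum, e3, e4]
    field_simp
    ring
  have h2 : dev A i * ∑ j, A i j * (dev A j * x j) = 0 := by
    rw [← h1, Finset.mul_sum]
    exact Finset.sum_congr rfl fun j _ => by rw [hcov]; ring
  have h3 := (mul_eq_zero.mp h2).resolve_left (hpos i).ne'
  simpa [mulVec, dotProduct] using h3

/-- the constant vector `1` is not in the range of a fixed point -/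
lemma one_not_range (hn : 0 < n) (A : Matrix (Fin n) (Fin n) ℝ) (hA : IsCorrelation A)
    (h : corrMap A = A) (x : Fin n → ℝ) : A *ᵥ x ≠ fun _ => 1 := by
  intro hx
  obtain ⟨hpos, -⟩ := fixed_facts hn A hA h
  set K := LinearMap.ker A.mulVecLin with hK
  set L : (Fin n → ℝ) →ₗ[ℝ] (Fin n → ℝ) := (diagonal (dev A)).mulVecLin with hL
  have hLx : ∀ y : Fin n → ℝ, L y = fun i => dev A i * y i := by
    intro y; ext i; simp [hL, mulVec_diagonal]
  have hmap : ∀ y ∈ K, L y ∈ K := by
    intro y hy
    rw [hK, LinearMap.mem_ker, mulVecLin_apply] at hy ⊢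
    rw [hLx]
    exact fixed_mulVec hn A hA h y 0 hy
  have hinj : Function.Injective (L.restrict hmap) := by
    intro y z hyz
    have h1 : L y = L z := congrArg Subtype.val hyz
    ext i
    have h2 := congrFun h1 i
    rw [hLx, hLx] at h2
    exact mul_left_cancel₀ (hpos i).ne' h2
  have hsurj := LinearMap.surjective_of_injective hinj
  have hDx : L x ∈ K := by
    rw [hK, LinearMap.mem_ker, mulVecLin_apply, hLx]
    exact fixed_mulVec hn A hA h x 1 hx
  obtain ⟨y, hy⟩ := hsurj ⟨L x, hDx⟩
  have h1 : L y = L x := congrArg Subtype.val hy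
  have h2 : (y : Fin n → ℝ) = x := by
    ext i
    have h2 := congrFun h1 i
    rw [hLx, hLx] at h2
    exact mul_left_cancel₀ (hpos i).ne' h2
  have h3 : A *ᵥ x = 0 := by
    have h4 : A.mulVecLin (y : Fin n → ℝ) = 0 := LinearMap.mem_ker.mp y.2
    rw [mulVecLin_apply, h2] at h4
    exact h4
  rw [h3] at hx
  have := congrFun hx ⟨0, hn⟩
  simp at this

lemma split_indicator (A : Matrix (Fin n) (Fin n) ℝ) (hs : IsSplit A) (e : ℝ) (i : Fin n) :
    (A *ᵥ (fun j => if dev A j = e then 1 else 0)) i
      = if dev A i = e then ∑ k, A i k else 0 := by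
  rw [mulVec, dotProduct]
  split_ifs with hi
  · apply Finset.sum_congr rfl
    intro j _
    by_cases hj : dev A j = e
    · simp [hj]
    · rw [if_neg hj, mul_zero, hs i j (by rw [hi]; exact fun h => hj h.symm)]
  · apply Finset.sum_eq_zero
    intro j _
    by_cases hj : dev A j = e
    · rw [if_pos hj, mul_one, hs i j (by rw [hj]; exact hi)]
    · rw [if_neg hj, mul_zero]

lemma oneClass_of_split (hn : 0 < n) (A : Matrix (Fin n) (Fin n) ℝ) (hA : IsCorrelation A)
    (h : corrMap A = A) (hs : IsSplit A) : OneClass A := by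
  obtain ⟨hpos, hcov⟩ := fixed_facts hn A hA h
  have hn' : (n : ℝ) ≠ 0 := by exact_mod_cast hn.ne'
  have hrr : ∀ i j, dev A i ≠ dev A j → (∑ k, A i k) * (∑ k, A j k) = 0 := by
    intro i j hij
    have h1 := hcov i j
    rw [hs i j hij] at h1
    have h2 : (A * A) i j = 0 := by
      rw [Matrix.mul_apply]
      apply Finset.sum_eq_zero
      intro k _
      by_cases hk : dev A i = dev A k
      · rw [hs k j (by rw [← hk]; exact hij), mul_zero]
      · rw [hs i k hk, zero_mul]
    unfold cov at h1
    rw [h2] at h1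
    have h3 : (∑ k, A i k) * (∑ k, A j k) / n = 0 := by linarith
    exact (div_eq_zero_iff.mp h3).resolve_right hn'
  by_cases hall : ∀ i, ∑ k, A i k = 0
  · refine ⟨0, fun e _ => ?_⟩
    ext i
    rw [split_indicator A hs]
    simp [hall]
  · push Not at hall
    obtain ⟨i0, hi0⟩ := hall
    refine ⟨dev A i0, fun e he => ?_⟩
    ext i
    rw [split_indicator A hs]
    split_ifs with hi
    · have := hrr i0 i (by rw [hi]; exact he.symm)
      simpa using (mul_eq_zero.mp this).resolve_left hi0
    · rfl

lemma split_of_oneClass (hn : 0 < n) (A : Matrix (Fin n) (Fin n) ℝ) (hA : IsCorrelation A)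
    (h : corrMap A = A) (hc : OneClass A) : IsSplit A := by
  obtain ⟨hpos, hcov⟩ := fixed_facts hn A hA h
  obtain ⟨δ, hδ⟩ := hc
  have hn' : (0:ℝ) < n := by exact_mod_cast hn
  set e : Fin n → ℝ := fun j => if dev A j = δ then 1 else 0 with he
  have hr : ∀ i, ∑ k, A i k * e k = ∑ k, A i k := by
    intro i
    have h1 : ∑ k, A i k * (1 - e k) = 0 := by
      have h2 : ∑ k, A i k * (1 - e k) = ∑ v ∈ Finset.univ.image (dev A),
          ∑ k with dev A k = v, A i k * (1 - e k) :=
        (Finset.sum_fiberwise_of_maps_to (fun k hk => Finset.mem_image_of_mem _ hk) _).symm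
      rw [h2]
      apply Finset.sum_eq_zero
      intro v _
      by_cases hv : v = δ
      · apply Finset.sum_eq_zero
        intro k hk
        have := (Finset.mem_filter.mp hk).2
        simp [he, this, hv]
      · have h3 := congrFun (hδ v hv) i
        rw [mulVec, dotProduct] at h3
        rw [Finset.sum_filter]
        have h4 : ∑ k, A i k * (if dev A k = v then 1 else 0) = 0 := h3
        refine (Finset.sum_congr rfl ?_).trans h4
        intro k _
        by_cases hk : dev A k = v
        · simp [he, hk, hv]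
        · simp [hk]
    have h5 : ∑ k, A i k * (1 - e k) = ∑ k, A i k - ∑ k, A i k * e k := by
      rw [← Finset.sum_sub_distrib]
      exact Finset.sum_congr rfl fun k _ => by ring
    linarith
  by_cases hall : ∀ i, dev A i = δ
  · intro i j hij
    exact absurd ((hall i).trans (hall j).symm) hij
  push Not at hall
  obtain ⟨i0, hi0⟩ := hall
  set m : ℝ := ∑ k, e k * e k with hm
  have hmn : m < n := by
    have : m < ∑ k : Fin n, (1:ℝ) := by
      rw [hm]
      apply Finset.sum_lt_sum
      · intro k _
        simp only [he]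
        split_ifs <;> norm_num
      · exact ⟨i0, Finset.mem_univ _, by simp [he, hi0]⟩
    simpa using this
  have hm0 : 0 ≤ m := Finset.sum_nonneg fun k _ => mul_self_nonneg _
  have hq : 0 < 1 - m / n := by
    rw [sub_pos, div_lt_one hn']; exact hmn
  set s0 : ℝ := √(1 - m / n) with hs0
  have hs0pos : 0 < s0 := Real.sqrt_pos.mpr hq
  have hs0sq : s0 * s0 = 1 - m / n := Real.mul_self_sqrt hq.le
  set β : ℝ := 1 / (n * (1 + s0)) with hβ
  have hβm : β * m = 1 - s0 := by
    have h1 : m = (1 - s0 * s0) * n := by rw [hs0sq]; field_simp; ring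
    rw [hβ, h1]
    have : 1 + s0 ≠ 0 := by linarith
    field_simp
    ring
  have hββ : 2 * β - β * β * m = 1 / n := by
    have h1 : 2 * β - β * β * m = β * (2 - β * m) := by ring
    rw [h1, hβm, hβ]
    have : 1 + s0 ≠ 0 := by linarith
    field_simp
    ring
  set γ : ℝ := β / s0 with hγ
  have hγβ : γ - β - β * γ * m = 0 := by
    have h1 : γ - β - β * γ * m = γ * (1 - β * m) - β := by ring
    rw [h1, hβm, hγ]
    field_simp
    ring
  set E : Matrix (Fin n) (Fin n) ℝ := vecMulVec e e with hE
  have hEE : E * E = m • E := by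
    ext i j
    rw [Matrix.mul_apply, Matrix.smul_apply, smul_eq_mul, hm, Finset.sum_mul]
    apply Finset.sum_congr rfl
    intro k _
    simp only [hE, vecMulVec_apply]
    ring
  set S : Matrix (Fin n) (Fin n) ℝ := 1 - β • E with hS
  set T : Matrix (Fin n) (Fin n) ℝ := 1 + γ • E with hT
  have hSS : S * S = 1 - (1 / (n:ℝ)) • E := by
    rw [← hββ, hS]
    simp only [Matrix.mul_sub, Matrix.sub_mul, Matrix.mul_one, Matrix.one_mul, Matrix.smul_mul,
      Matrix.mul_smul, hEE]
    module
  have hST : S * T = 1 := by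
    have h1 : S * T = 1 + (γ - β - β * γ * m) • E := by
      rw [hS, hT]
      simp only [Matrix.mul_add, Matrix.sub_mul, Matrix.mul_one, Matrix.one_mul, Matrix.smul_mul,
        Matrix.mul_smul, hEE]
      module
    rw [h1, hγβ, zero_smul, add_zero]
  have hTS : T * S = 1 := by
    have h1 : T * S = 1 + (γ - β - β * γ * m) • E := by
      rw [hS, hT]
      simp only [Matrix.add_mul, Matrix.mul_sub, Matrix.mul_one, Matrix.one_mul, Matrix.smul_mul,
        Matrix.mul_smul, hEE]
      module
    rw [h1, hγβ, zero_smul, add_zero]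
  set D := diagonal (dev A) with hD
  have hDE : D * E = E * D := by
    ext i j
    rw [hD, diagonal_mul, mul_diagonal]
    simp only [hE, vecMulVec_apply, he]
    by_cases h1 : dev A i = δ
    · by_cases h2 : dev A j = δ
      · rw [h1, h2]; ring
      · simp [h2]
    · simp [h1]
  have hDS : D * S = S * D := by
    rw [hS, Matrix.mul_sub, Matrix.sub_mul, Matrix.mul_one, Matrix.one_mul, Matrix.mul_smul,
      Matrix.smul_mul, hDE]
  have hSt : Sᴴ = S := by
    rw [conjTranspose_eq_transpose_of_trivial, hS, transpose_sub, transpose_one, transpose_smul, hE,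
      transpose_vecMulVec]
  have hAKA : A * (S * S) * A = D * A * D := by
    rw [hSS]
    ext i j
    rw [hD, mul_diagonal, diagonal_mul, ← hcov]
    unfold cov
    rw [Matrix.mul_sub, Matrix.mul_one, Matrix.sub_mul, Matrix.sub_apply, Matrix.mul_smul,
      Matrix.smul_mul, Matrix.smul_apply, smul_eq_mul]
    congr 1
    have h1 : (A * E * A) i j = (∑ k, A i k) * ∑ k, A j k := by
      rw [← hr i, ← hr j, Matrix.mul_apply, Finset.mul_sum]
      apply Finset.sum_congr rfl
      intro k _
      rw [Matrix.mul_apply, symm_of A hA k j]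
      have : ∑ l, A i l * E l k = (∑ l, A i l * e l) * e k := by
        rw [Finset.sum_mul]
        apply Finset.sum_congr rfl
        intro l _
        simp only [hE, vecMulVec_apply]
        ring
      rw [this]; ring
    rw [h1]; ring
  have hM : (S * A * S).PosSemidef := by
    have := hA.1.mul_mul_conjTranspose_same S
    rwa [hSt] at this
  have hMM : S * A * S * (S * A * S) = D * (S * A * S) * D := by
    calc S * A * S * (S * A * S) = S * (A * (S * S) * A) * S := by simp only [Matrix.mul_assoc]
      _ = S * (D * A * D) * S := by rw [hAKA]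
      _ = (S * D) * A * (D * S) := by simp only [Matrix.mul_assoc]
      _ = (D * S) * A * (S * D) := by rw [hDS]
      _ = D * (S * A * S) * D := by simp only [Matrix.mul_assoc]
  have hcomm := commute_of_sq (S * A * S) hM (dev A) hpos hMM
  have hAD : A * D = D * A := by
    calc A * D = (T * S) * A * D * (S * T) := by rw [hTS, hST, Matrix.one_mul, Matrix.mul_one]
      _ = T * S * A * (D * S) * T := by simp only [Matrix.mul_assoc]
      _ = T * ((S * A * S) * D) * T := by rw [hDS]; simp only [Matrix.mul_assoc]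
      _ = T * (D * (S * A * S)) * T := by rw [hcomm]
      _ = T * (D * S) * A * (S * T) := by simp only [Matrix.mul_assoc]
      _ = (T * S) * D * A * (S * T) := by rw [hDS]; simp only [Matrix.mul_assoc]
      _ = D * A := by rw [hTS, hST, Matrix.one_mul, Matrix.mul_one]
  intro i j hij
  have h1 := congrFun (congrFun hAD i) j
  rw [hD, mul_diagonal, diagonal_mul] at h1
  have h2 : A i j * (dev A i - dev A j) = 0 := by linarith
  exact (mul_eq_zero.mp h2).resolve_right (sub_ne_zero.mpr hij)

lemma constant_rows (hn : 0 < n) (A : Matrix (Fin n) (Fin n) ℝ) (hA : IsCorrelation A)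
    (h : corrMap A = A) (c : ℝ) (hc : ∀ i, ∑ k, A i k = c) : c = 0 ∧ IsSplit A := by
  obtain ⟨hpos, hcov⟩ := fixed_facts hn A hA h
  have hn' : (0:ℝ) < n := by exact_mod_cast hn
  have h1 : A *ᵥ (fun i => dev A i * (1:ℝ)) = 0 := by
    apply fixed_mulVec hn A hA h (fun _ => 1) c
    ext i
    simp [mulVec, dotProduct, hc i]
  have h2 : c * ∑ j, dev A j = 0 := by
    have h3 : ∑ i, (A *ᵥ (fun i => dev A i * (1:ℝ))) i = 0 := by rw [h1]; simp
    rw [← h3]
    simp only [mulVec, dotProduct, mul_one]
    rw [Finset.sum_comm, Finset.mul_sum]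
    apply Finset.sum_congr rfl
    intro j _
    rw [← Finset.sum_mul]
    congr 1
    rw [← hc j]
    exact Finset.sum_congr rfl fun i _ => symm_of A hA j i
  have h4 : 0 < ∑ j, dev A j := by
    apply Finset.sum_pos (fun j _ => hpos j)
    exact ⟨⟨0, hn⟩, Finset.mem_univ _⟩
  have hc0 : c = 0 := (mul_eq_zero.mp h2).resolve_right h4.ne'
  refine ⟨hc0, ?_⟩
  have h5 : A * A = diagonal (dev A) * A * diagonal (dev A) := by
    ext i j
    rw [mul_diagonal, diagonal_mul, ← hcov]
    unfold cov
    rw [hc i, hc0]; simp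
  have h6 := commute_of_sq A hA.1 (dev A) hpos h5
  intro i j hij
  have h1 := congrFun (congrFun h6 i) j
  rw [mul_diagonal, diagonal_mul] at h1
  have h2 : A i j * (dev A i - dev A j) = 0 := by linarith
  exact (mul_eq_zero.mp h2).resolve_right (sub_ne_zero.mpr hij)

lemma normalForm_of (hn : 0 < n) (A : Matrix (Fin n) (Fin n) ℝ) (hA : IsCorrelation A)
    (h : corrMap A = A) (hc : OneClass A) (hs : IsSplit A) : NormalForm A := by
  obtain ⟨hpos, hcov⟩ := fixed_facts hn A hA h
  have hn' : (0:ℝ) < n := by exact_mod_cast hn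
  obtain ⟨δ, hδ⟩ := hc
  have hr0 : ∀ i, dev A i ≠ δ → ∑ k, A i k = 0 := by
    intro i hi
    have := congrFun (hδ (dev A i) hi) i
    rw [split_indicator A hs, if_pos rfl] at this
    exact this
  set μ : Fin n → ℝ := fun i => dev A i * dev A i with hμ
  have hμpos : ∀ i, 0 < μ i := fun i => mul_pos (hpos i) (hpos i)
  have hdμ : ∀ i j, dev A i = dev A j → μ i = μ j := by
    intro i j hij; simp only [hμ, hij]
  have hblock : ∀ i j, A i j ≠ 0 → dev A i = dev A j := by
    intro i j hij
    by_contra hne
    exact hij (hs i j hne)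
  set Q : Fin n → Fin n → ℝ := fun i j => A i j / μ i with hQ
  set w : Fin n → ℝ := fun i => (∑ k, A i k) / μ i with hw
  set W : ℝ := ∑ i, w i with hW
  have hQsym : ∀ i j, Q i j = Q j i := by
    intro i j
    simp only [hQ]
    rw [symm_of A hA j i]
    by_cases h0 : A i j = 0
    · rw [h0]; simp
    · rw [hdμ i j (hblock i j h0)]
  have hQrow : ∀ i, ∑ j, Q i j = w i := by
    intro i; simp only [hQ, hw]; rw [Finset.sum_div]
  have hwne : ∀ i, w i ≠ 0 → dev A i = δ := by
    intro i hi
    by_contra hne
    exact hi (by simp only [hw]; rw [hr0 i hne, zero_div])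
  have hQQ : ∀ i j, ∑ k, Q i k * Q k j = Q i j + w i * w j / n := by
    intro i j
    have h1 : ∑ k, Q i k * Q k j = (A * A) i j / (μ i * μ i) := by
      rw [Matrix.mul_apply, Finset.sum_div]
      apply Finset.sum_congr rfl
      intro k _
      simp only [hQ]
      by_cases h0 : A i k = 0
      · rw [h0]; simp
      · rw [← hdμ i k (hblock i k h0)]
        have := (hμpos i).ne'
        field_simp
    have h2 : (A * A) i j = μ i * A i j + (∑ k, A i k) * (∑ k, A j k) / n := by
      have h3 := hcov i j
      unfold cov at h3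
      have h4 : dev A i * A i j * dev A j = μ i * A i j := by
        by_cases h0 : A i j = 0
        · rw [h0]; simp
        · rw [← hblock i j h0]; simp only [hμ]; ring
      rw [h4] at h3
      linarith
    rw [h1, h2]
    have h5 : (∑ k, A i k) * (∑ k, A j k) / n / (μ i * μ i) = w i * w j / n := by
      by_cases hwi : w i = 0
      · have : ∑ k, A i k = 0 := by
          have := (div_eq_zero_iff.mp hwi).resolve_right (hμpos i).ne'
          exact this
        rw [this, hwi]; simp
      · by_cases hwj : w j = 0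
        · have : ∑ k, A j k = 0 := by
            have := (div_eq_zero_iff.mp hwj).resolve_right (hμpos j).ne'
            exact this
          rw [this, hwj]; simp
        · have h6 : μ j = μ i := hdμ j i ((hwne j hwj).trans (hwne i hwi).symm)
          simp only [hw]
          rw [h6]
          have := (hμpos i).ne'
          field_simp
    rw [add_div, h5]
    congr 1
    simp only [hQ]
    have := (hμpos i).ne'
    field_simp
  have hQw : ∀ i, ∑ k, Q i k * w k = w i + w i * W / n := by
    intro i
    have h1 : ∑ k, Q i k * w k = ∑ j, ∑ k, Q i k * Q k j := by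
      rw [Finset.sum_comm]
      apply Finset.sum_congr rfl
      intro k _
      rw [← Finset.mul_sum, hQrow]
    rw [h1, Finset.sum_congr rfl fun j _ => hQQ i j, Finset.sum_add_distrib, hQrow, hW,
      Finset.mul_sum, Finset.sum_div]
  have hww : ∑ k, w k * w k = W + W * W / n := by
    have h1 : ∑ k, w k * w k = ∑ i, ∑ k, Q i k * w k := by
      rw [Finset.sum_comm]
      apply Finset.sum_congr rfl
      intro k _
      rw [← Finset.sum_mul]
      congr 1
      rw [← hQrow k]
      exact Finset.sum_congr rfl fun i _ => hQsym k i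
    rw [h1, Finset.sum_congr rfl fun i _ => hQw i, Finset.sum_add_distrib, ← hW]
    congr 1
    rw [← Finset.sum_div, ← Finset.sum_mul, ← hW]
  have hW0 : 0 ≤ W := by
    have h1 := hA.1.dotProduct_mulVec_nonneg (fun i => 1 / dev A i)
    have h2 : W = star (fun i => 1 / dev A i) ⬝ᵥ (A *ᵥ fun i => 1 / dev A i) := by
      rw [star_trivial, dotProduct, hW]
      apply Finset.sum_congr rfl
      intro i _
      rw [← hQrow i, mulVec, dotProduct, Finset.mul_sum]
      apply Finset.sum_congr rfl
      intro j _
      simp only [hQ, hμ]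
      by_cases h0 : A i j = 0
      · rw [h0]; simp
      · rw [hblock i j h0]
        have := (hpos j).ne'
        field_simp
    rw [h2]; exact h1
  have hnW : (n:ℝ) + W ≠ 0 := by linarith
  set P : Matrix (Fin n) (Fin n) ℝ := fun i j => Q i j - w i * w j / (n + W) with hP
  have hProw : ∀ i, ∑ j, P i j = w i * n / (n + W) := by
    intro i
    simp only [hP]
    rw [Finset.sum_sub_distrib, hQrow, ← Finset.sum_div, ← Finset.mul_sum, ← hW]
    field_simp
    ring
  have hPsum : ∑ i, ∑ j, P i j = W * n / (n + W) := by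
    rw [Finset.sum_congr rfl fun i _ => hProw i, ← Finset.sum_div, ← Finset.sum_mul, ← hW]
  refine ⟨P, μ, δ * δ, ?_, ?_, hμpos, ?_, ?_, ?_, ?_⟩
  · ext i j
    show Q j i - w j * w i / (n + W) = Q i j - w i * w j / (n + W)
    rw [hQsym j i]; ring
  · ext i j
    rw [Matrix.mul_apply]
    simp only [hP]
    have h1 : ∀ k, (Q i k - w i * w k / (n + W)) * (Q k j - w k * w j / (n + W))
        = Q i k * Q k j - (Q i k * w k) * (w j / (n + W)) - (Q j k * w k) * (w i / (n + W))
          + (w k * w k) * (w i * w j / ((n + W) * (n + W))) := by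
      intro k
      rw [hQsym k j]
      field_simp
      ring
    rw [Finset.sum_congr rfl fun k _ => h1 k, Finset.sum_add_distrib, Finset.sum_sub_distrib,
      Finset.sum_sub_distrib, ← Finset.sum_mul, ← Finset.sum_mul, ← Finset.sum_mul, hQQ, hQw, hQw,
      hww]
    field_simp
    ring
  · intro i j hij
    have hd : dev A i ≠ dev A j := fun h => hij (hdμ i j h)
    simp only [hP, hQ]
    rw [hs i j hd]
    by_cases hwi : w i = 0
    · rw [hwi]; simp
    · by_cases hwj : w j = 0
      · rw [hwj]; simp
      · exact absurd ((hwne i hwi).trans (hwne j hwj).symm) hd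
  · intro i hi
    rw [hProw]
    have hd : dev A i ≠ δ := by
      intro h; apply hi; simp only [hμ, h]
    have : w i = 0 := by simp only [hw]; rw [hr0 i hd, zero_div]
    rw [this]; simp
  · rw [hPsum, div_lt_iff₀ (by linarith)]
    nlinarith
  · intro i j
    rw [hProw, hProw, hPsum]
    simp only [hP]
    have h1 : (n:ℝ) - W * n / (n + W) = n * n / (n + W) := by field_simp; ring
    rw [h1]
    have h2 : w i * n / (n + W) * (w j * n / (n + W)) / (n * n / (n + W)) = w i * w j / (n + W) := by
      field_simp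
    rw [h2]
    simp only [hQ]
    have := (hμpos i).ne'
    field_simp
    ring

lemma of_normalForm (hn : 0 < n) (A : Matrix (Fin n) (Fin n) ℝ) (hA : IsCorrelation A)
    (hN : NormalForm A) : corrMap A = A ∧ OneClass A := by
  obtain ⟨P, μ, ν, hPt, hPP, hμpos, hPb, hPν, hlt, hAf⟩ := hN
  have hn' : (0:ℝ) < n := by exact_mod_cast hn
  set s : ℝ := ∑ a, ∑ b, P a b with hs
  have hns : (n:ℝ) - s ≠ 0 := by linarith
  have hPs : ∀ i j, P i j = P j i := by
    intro i j
    have := congrFun (congrFun hPt i) j
    rw [transpose_apply] at this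
    exact this.symm
  have hPPe : ∀ i j, ∑ k, P i k * P k j = P i j := by
    intro i j
    have := congrFun (congrFun hPP i) j
    rwa [Matrix.mul_apply] at this
  set p : Fin n → ℝ := fun i => ∑ k, P i k with hp
  have hpne : ∀ i, p i ≠ 0 → μ i = ν := by
    intro i hi
    by_contra hne
    exact hi (hPν i hne)
  have hPp : ∀ i, ∑ k, P i k * p k = p i := by
    intro i
    have h1 : ∑ k, P i k * p k = ∑ j, ∑ k, P i k * P k j := by
      rw [Finset.sum_comm]
      apply Finset.sum_congr rfl
      intro k _
      simp only [hp]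
      rw [← Finset.mul_sum]
    rw [h1]
    exact Finset.sum_congr rfl fun j _ => hPPe i j
  have hpp : ∑ k, p k * p k = s := by
    have h1 : ∑ k, p k * p k = ∑ i, ∑ k, P i k * p k := by
      rw [Finset.sum_comm]
      apply Finset.sum_congr rfl
      intro k _
      rw [← Finset.sum_mul]
      congr 1
      simp only [hp]
      exact Finset.sum_congr rfl fun i _ => hPs k i
    rw [h1]
    exact Finset.sum_congr rfl fun i _ => hPp i
  have hsum : ∑ k, p k = s := rfl
  set Q : Fin n → Fin n → ℝ := fun i j => P i j + p i * p j / (n - s) with hQ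
  have hAQ : ∀ i j, A i j = μ i * Q i j := fun i j => hAf i j
  have hQs : ∀ i j, Q i j = Q j i := by
    intro i j; simp only [hQ]; rw [hPs i j]; ring
  have hQb : ∀ i j, μ i ≠ μ j → Q i j = 0 := by
    intro i j hij
    simp only [hQ]
    rw [hPb i j hij]
    by_cases hi : p i = 0
    · rw [hi]; simp
    · by_cases hj : p j = 0
      · rw [hj]; simp
      · exact absurd ((hpne i hi).trans (hpne j hj).symm) hij
  have hrow : ∀ i, ∑ j, A i j = μ i * (p i * n / (n - s)) := by
    intro i
    rw [Finset.sum_congr rfl fun j _ => hAQ i j, ← Finset.mul_sum]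
    congr 1
    simp only [hQ]
    rw [Finset.sum_add_distrib, ← Finset.sum_div, ← Finset.mul_sum, hsum]
    show p i + p i * s / (n - s) = _
    field_simp
    ring
  have hQQ : ∀ i j, ∑ k, Q i k * Q k j = P i j + p i * p j * (2 * n - s) / ((n - s) * (n - s)) := by
    intro i j
    have h1 : ∀ k, Q i k * Q k j = P i k * P k j + (P i k * p k) * (p j / (n - s))
        + (P j k * p k) * (p i / (n - s)) + (p k * p k) * (p i * p j / ((n - s) * (n - s))) := by
      intro k
      simp only [hQ]
      rw [hPs k j]
      field_simp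
      ring
    rw [Finset.sum_congr rfl fun k _ => h1 k, Finset.sum_add_distrib, Finset.sum_add_distrib,
      Finset.sum_add_distrib, ← Finset.sum_mul, ← Finset.sum_mul, ← Finset.sum_mul, hPPe, hPp, hPp,
      hpp]
    field_simp
    ring
  have hAA : ∀ i j, (A * A) i j = μ i * μ i * ∑ k, Q i k * Q k j := by
    intro i j
    rw [Matrix.mul_apply, Finset.mul_sum]
    apply Finset.sum_congr rfl
    intro k _
    rw [hAQ i k, hAQ k j]
    by_cases hk : μ i = μ k
    · rw [← hk]; ring
    · rw [hQb i k hk]; ring
  have hcov : ∀ i j, cov A i j = μ i * A i j := by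
    intro i j
    unfold cov
    rw [hAA, hQQ, hrow, hrow, hAQ i j]
    simp only [hQ]
    by_cases hi : p i = 0
    · rw [hi]
      by_cases hj : μ i = μ j
      · simp; ring
      · rw [hPb i j hj]; simp
    · by_cases hj : p j = 0
      · rw [hj]
        simp; ring
      · have h1 : μ j = μ i := (hpne j hj).trans (hpne i hi).symm
        rw [h1]
        field_simp
        ring
  have hdev : ∀ i, dev A i = √(μ i) := by
    intro i
    have h1 := dev_sq hn A hA i
    rw [hcov, hA.2 i, mul_one] at h1
    rw [← h1, Real.sqrt_mul_self (show 0 ≤ dev A i from Real.sqrt_nonneg _)]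
  have hfix : corrMap A = A := by
    ext i j
    rw [corrMap_eq hn A hA, hcov, hdev, hdev]
    by_cases hij : μ i = μ j
    · rw [← hij, Real.mul_self_sqrt (hμpos i).le]
      have := (hμpos i).ne'
      field_simp
    · rw [hAQ i j, hQb i j hij]; simp
  refine ⟨hfix, √ν, fun e he => ?_⟩
  have hsplit : IsSplit A := by
    intro i j hij
    rw [hAQ i j, hQb i j, mul_zero]
    intro h
    apply hij
    rw [hdev, hdev, h]
  ext i
  rw [split_indicator A hsplit]
  split_ifs with hi
  · rw [hrow]
    have hpi : p i = 0 := by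
      apply hPν
      intro h
      apply he
      rw [← hi, hdev, h]
    rw [hpi]; simp
  · rfl

/-- type of an index of the example -/
def ty (i : Fin 25) : Fin 3 := if i.val < 6 then 0 else if i.val < 22 then 1 else 2

/-- table of entries of the example -/
noncomputable def tab : Matrix (Fin 3) (Fin 3) ℝ :=
  !![1, 1/3, -(1/3); 1/3, 1, -1; -(1/3), -1, 1]

/-- the example -/
noncomputable def exA : Matrix (Fin 25) (Fin 25) ℝ := fun i j => tab (ty i) (ty j)

lemma sum_ty (F : Fin 3 → ℝ) : ∑ k : Fin 25, F (ty k) = 6 * F 0 + 16 * F 1 + 3 * F 2 := by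
  have h := Finset.sum_comp (s := (Finset.univ : Finset (Fin 25))) F ty
  rw [h]
  have hi : (Finset.univ : Finset (Fin 25)).image ty = Finset.univ := by decide
  rw [hi, Fin.sum_univ_three]
  have h0 : (Finset.univ.filter fun k : Fin 25 => ty k = 0).card = 6 := by decide
  have h1 : (Finset.univ.filter fun k : Fin 25 => ty k = 1).card = 16 := by decide
  have h2 : (Finset.univ.filter fun k : Fin 25 => ty k = 2).card = 3 := by decide
  rw [h0, h1, h2]
  simp [nsmul_eq_mul]

lemma exA_corr : IsCorrelation exA := by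
  constructor
  · have h : exA = (1/3 : ℝ) • vecMulVec (fun i => ![1, 1, -1] (ty i)) (star fun i => ![1, 1, -1] (ty i))
        + (2/3 : ℝ) • vecMulVec (fun i => ![1, 0, 0] (ty i)) (star fun i => ![1, 0, 0] (ty i))
        + (2/3 : ℝ) • vecMulVec (fun i => ![0, 1, -1] (ty i)) (star fun i => ![0, 1, -1] (ty i)) := by
      ext i j
      simp only [exA, Matrix.add_apply, Matrix.smul_apply, vecMulVec_apply, star_trivial,
        smul_eq_mul]
      generalize ty i = a
      generalize ty j = b
      fin_cases a <;> fin_cases b <;> simp [tab] <;> norm_num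
    rw [h]
    exact (((posSemidef_vecMulVec_self_star _).smul (by norm_num)).add
      ((posSemidef_vecMulVec_self_star _).smul (by norm_num))).add
      ((posSemidef_vecMulVec_self_star _).smul (by norm_num))
  · intro i
    simp only [exA]
    generalize ty i = a
    fin_cases a <;> simp [tab]

/-- table of covariances of the example -/
noncomputable def ctab : Matrix (Fin 3) (Fin 3) ℝ :=
  !![96/25, 32/15, -(32/15); 32/15, 32/3, -(32/3); -(32/15), -(32/3), 32/3]

lemma exA_cov (i j : Fin 25) : cov exA i j = ctab (ty i) (ty j) := by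
  unfold cov
  rw [Matrix.mul_apply]
  have h1 : ∑ k, exA i k * exA k j = 6 * (tab (ty i) 0 * tab 0 (ty j))
      + 16 * (tab (ty i) 1 * tab 1 (ty j)) + 3 * (tab (ty i) 2 * tab 2 (ty j)) :=
    sum_ty fun b => tab (ty i) b * tab b (ty j)
  have h2 : ∀ l, ∑ k, exA l k = 6 * tab (ty l) 0 + 16 * tab (ty l) 1 + 3 * tab (ty l) 2 :=
    fun l => sum_ty fun b => tab (ty l) b
  rw [h1, h2, h2]
  generalize ty i = a
  generalize ty j = b
  fin_cases a <;> fin_cases b <;> simp [tab, ctab] <;> norm_num

lemma exA_fixed : corrMap exA = exA := by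
  ext i j
  have hd : ∀ l, dev exA l = √(ctab (ty l) (ty l)) := by
    intro l
    rw [← exA_cov, ← dev_sq (by norm_num) exA exA_corr,
      Real.sqrt_mul_self (show 0 ≤ dev exA l from Real.sqrt_nonneg _)]
  rw [corrMap_eq (by norm_num) exA exA_corr, exA_cov, hd, hd]
  simp only [exA]
  have e1 : √(96/25 : ℝ) * √(32/3) = 32/5 := by
    rw [← Real.sqrt_mul (by norm_num), show (96/25 : ℝ) * (32/3) = (32/5) * (32/5) by norm_num,
      Real.sqrt_mul_self (by norm_num)]
  have e2 : √(32/3 : ℝ) * √(96/25) = 32/5 := by rw [mul_comm, e1]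
  have e3 : √(96/25 : ℝ) * √(96/25) = 96/25 := Real.mul_self_sqrt (by norm_num)
  have e4 : √(32/3 : ℝ) * √(32/3) = 32/3 := Real.mul_self_sqrt (by norm_num)
  generalize ty i = a
  generalize ty j = b
  fin_cases a <;> fin_cases b <;>
    simp only [tab, ctab, Fin.zero_eta, Fin.mk_one, Fin.reduceFinMk, Matrix.of_apply,
      Matrix.cons_val', Matrix.cons_val_zero, Matrix.cons_val_one, Matrix.cons_val_fin_one,
      Matrix.cons_val, e1, e2, e3, e4] <;> norm_num

lemma exA_not_split : ¬ IsSplit exA := by
  intro h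
  have h1 := h 0 6 (by
    intro h2
    have h3 : cov exA 0 0 = cov exA 6 6 := by
      rw [← dev_sq (by norm_num) exA exA_corr, ← dev_sq (by norm_num) exA exA_corr, h2]
    rw [exA_cov, exA_cov] at h3
    have t0 : ty 0 = 0 := by decide
    have t6 : ty 6 = 1 := by decide
    rw [t0, t6] at h3
    simp [ctab] at h3
    norm_num at h3)
  have t0 : ty 0 = 0 := by decide
  have t6 : ty 6 = 1 := by decide
  simp only [exA] at h1
  rw [t0, t6] at h1
  simp [tab] at h1

/-- **Main result.** Let `A` be an `n × n` correlation matrix, `n ≥ 1`.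
1. `A` is a split fixed point of the correlation map if and only if it has the normal form.
2. A fixed point is split if and only if it annihilates all but at most one of the indicator
vectors of its classes.
3. If all row sums of a fixed point are equal, then they are `0` and the fixed point is split.
4. Some fixed point (for `n = 25`) is not split. -/
theorem result :
    (∀ n : ℕ, 0 < n → ∀ A : Matrix (Fin n) (Fin n) ℝ, IsCorrelation A →
      (corrMap A = A ∧ IsSplit A ↔ NormalForm A) ∧
      (corrMap A = A → (IsSplit A ↔ OneClass A)) ∧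
      (corrMap A = A → (∀ i j, ∑ k, A i k = ∑ k, A j k) →
        (∀ i, ∑ k, A i k = 0) ∧ IsSplit A)) ∧
    ∃ A : Matrix (Fin 25) (Fin 25) ℝ, IsCorrelation A ∧ corrMap A = A ∧ ¬ IsSplit A := by
  refine ⟨fun n hn A hA => ⟨?_, fun h => ⟨oneClass_of_split hn A hA h,
    split_of_oneClass hn A hA h⟩, fun h hr => ?_⟩, exA, exA_corr, exA_fixed, exA_not_split⟩
  · constructor
    · rintro ⟨h, hs⟩
      exact normalForm_of hn A hA h (oneClass_of_split hn A hA h hs) hs
    · intro hN
      obtain ⟨h, hc⟩ := of_normalForm hn A hA hN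
      exact ⟨h, split_of_oneClass hn A hA h hc⟩
  · obtain ⟨h0, hsp⟩ := constant_rows hn A hA h (∑ k, A ⟨0, hn⟩ k) (fun i => hr i ⟨0, hn⟩)
    exact ⟨fun i => (hr i ⟨0, hn⟩).trans h0, hsp⟩

end Pool.Agent.Results.MP_f2d8fc_an.SplitFixedPoints
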